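import Pool.Graph.R_pool_sql_team_seeded_620a6dc7.helper213_IG_.Reg

/-!
# Trivialization of a D-class
-/

namespace Pool.Agent.H359.IGR

open Pool.Agent.H213 RkMonoid

variable {S : Type*} [RkMonoid S]

/-- Hypotheses on an idempotent `h0`: its D-class consists of all elements of the same rank, and its
maximal subgroup has at most two elements. -/
structure Triv (h0 : S) : Prop where
  idem : h0 * h0 = h0
  conn : ∀ a : S, rk a = rk h0 → ∃ m, rk (a * m * h0) = rk h0
  two : ∀ g1 g2 g3 : S, h0 * g1 = g1 → h0 * g2 = g2 → h0 * g3 = g3 → g1 * h0 = g1 → g2 * h0 = g2 →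
    g3 * h0 = g3 → rk g1 = rk h0 → rk g2 = rk h0 → rk g3 = rk h0 → g1 = g2 ∨ g2 = g3 ∨ g1 = g3

open Classical in
/-- the multiplier -/
noncomputable def mm (h0 a : S) : S := @Classical.epsilon S ⟨1⟩ (fun m => rk (a * m * h0) = rk h0)

/-- normalization of the L-class -/
noncomputable def tr (h0 a : S) : S := a * mm h0 a * h0

variable {h0 : S}

theorem Triv.rk_tr (H : Triv h0) {a : S} (ha : rk a = rk h0) : rk (tr h0 a) = rk h0 :=
  @Classical.epsilon_spec S (fun m => rk (a * m * h0) = rk h0) (H.conn a ha)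

theorem Triv.tr_h0 (H : Triv h0) (a : S) : tr h0 a * h0 = tr h0 a := by
  unfold tr; rw [mul_assoc, H.idem]

theorem mm_congr {a b u v : S} (h1 : b = u * a) (h2 : a = v * b) : mm h0 a = mm h0 b := by
  have key : ∀ m, rk (a * m * h0) = rk (b * m * h0) := by
    intro m
    apply le_antisymm
    · rw [h2, mul_assoc v, mul_assoc v]; exact rk_mul_le_right _ _
    · rw [h1, mul_assoc u, mul_assoc u]; exact rk_mul_le_right _ _
  unfold mm
  congr 1
  funext m
  rw [key m]

theorem Triv.tr_mul (_ : Triv h0) {a f : S} (ha : rk a = rk h0) (hf : rk (f * a) = rk h0) :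
    tr h0 (f * a) = f * tr h0 a := by
  obtain ⟨w, hw⟩ := ex_left f a (by rw [hf, ha])
  have : mm h0 (f * a) = mm h0 a := (mm_congr (h0 := h0) (a := a) (b := f * a) rfl hw.symm).symm
  unfold tr
  rw [this]; simp only [mul_assoc]

theorem Triv.tr_inj (H : Triv h0) {a b u : S} (ha : rk a = rk h0) (hb : rk b = rk h0) (hu : b = u * a)
    (h : tr h0 a = tr h0 b) : a = b := by
  obtain ⟨w, hw⟩ := ex_left u a (by rw [← hu, hb, ha])
  have hm : mm h0 a = mm h0 b := mm_congr hu (by rw [hu]; exact hw.symm)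
  have h1 : rk (a * (mm h0 a * h0)) = rk a := by
    rw [← mul_assoc]; rw [ha]; exact H.rk_tr ha
  obtain ⟨t, ht⟩ := ex_right _ _ h1
  have h2 : b * (mm h0 a * h0) * t = b := by
    rw [hu, mul_assoc u, mul_assoc u, ht]
  rw [← ht, ← h2]
  congr 1
  unfold tr at h
  rw [← hm] at h
  rw [← mul_assoc, ← mul_assoc, h]

theorem Triv.tr_right (H : Triv h0) {a b s : S} (ha : rk a = rk h0) (hs : b = a * s) :
    ∃ σ, tr h0 b = tr h0 a * σ := by
  have h1 : rk (a * (mm h0 a * h0)) = rk a := by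
    rw [← mul_assoc]; rw [ha]; exact H.rk_tr ha
  obtain ⟨t, ht⟩ := ex_right _ _ h1
  refine ⟨t * s * (mm h0 b * h0), ?_⟩
  calc tr h0 b = b * (mm h0 b * h0) := by unfold tr; rw [mul_assoc]
    _ = (a * (mm h0 a * h0) * t) * s * (mm h0 b * h0) := by rw [ht, hs]
    _ = _ := by unfold tr; simp only [mul_assoc]

theorem Triv.cancel (H : Triv h0) {a b s f : S} (ha : rk a = rk h0) (hs : b = a * s)
    (hf : rk (f * a) = rk h0) (h : f * tr h0 a = f * tr h0 b) : tr h0 a = tr h0 b := by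
  obtain ⟨σ, hσ⟩ := H.tr_right ha hs
  have h1 : rk (f * tr h0 a) = rk (tr h0 a) := by
    rw [← H.tr_mul ha hf, H.rk_tr hf, H.rk_tr ha]
  obtain ⟨w, hw⟩ := ex_left _ _ h1
  calc tr h0 a = w * (f * tr h0 a) := hw.symm
    _ = w * (f * tr h0 b) := by rw [h]
    _ = w * (f * tr h0 a) * σ := by rw [hσ]; simp only [mul_assoc]
    _ = tr h0 b := by rw [hw, hσ]

theorem Triv.pigeon (H : Triv h0) {a b d s s' : S} (ha : rk a = rk h0) (hb : rk b = rk h0)
    (hd : rk d = rk h0) (hs : b = a * s) (hs' : d = a * s') :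
    tr h0 a = tr h0 b ∨ tr h0 b = tr h0 d ∨ tr h0 a = tr h0 d := by
  obtain ⟨σ, hσ⟩ := H.tr_right ha hs
  obtain ⟨τ, hτ⟩ := H.tr_right ha hs'
  obtain ⟨x, hx⟩ := exists_left_inv (H.tr_h0 a) (H.rk_tr ha).symm
  have hx' : h0 * x * tr h0 a = h0 := by rw [mul_assoc, hx, H.idem]
  have hr : ∀ z, rk (tr h0 a * z) = rk h0 → rk (h0 * x * (tr h0 a * z)) = rk h0 := by
    intro z hz
    have := rk_mul_right_congr (y := h0 * x) (x := tr h0 a) (by rw [hx', H.rk_tr ha]) z
    rw [← mul_assoc, this, hz]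
  have back : ∀ z, tr h0 a * (h0 * x * (tr h0 a * z)) = tr h0 a * z := by
    intro z
    rw [← mul_assoc (h0 * x), hx', ← mul_assoc, H.tr_h0]
  have hH : ∀ z, h0 * (h0 * x * z) = h0 * x * z := by
    intro z
    rw [← mul_assoc, ← mul_assoc, H.idem]
  have rb := H.rk_tr hb
  have rd := H.rk_tr hd
  have tb := H.tr_h0 b
  have td := H.tr_h0 d
  rw [hσ] at rb tb
  rw [hτ] at rd td
  have h1 : ∀ z, tr h0 a * z * h0 = tr h0 a * z → h0 * x * (tr h0 a * z) * h0 = h0 * x * (tr h0 a * z) := by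
    intro z hz
    rw [mul_assoc (h0 * x), hz]
  have ta : tr h0 a * 1 * h0 = tr h0 a * 1 := by rw [mul_one]; exact H.tr_h0 a
  have ra : rk (tr h0 a * 1) = rk h0 := by rw [mul_one]; exact H.rk_tr ha
  rcases H.two (h0 * x * (tr h0 a * 1)) (h0 * x * (tr h0 a * σ)) (h0 * x * (tr h0 a * τ))
    (hH _) (hH _) (hH _) (h1 _ ta) (h1 _ tb) (h1 _ td) (hr _ ra) (hr _ rb) (hr _ rd) with h | h | h
  · left
    have := congrArg (fun z => tr h0 a * z) h
    simp only [back] at this
    rw [hσ, ← this, mul_one]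
  · right; left
    have := congrArg (fun z => tr h0 a * z) h
    simp only [back] at this
    rw [hσ, hτ, this]
  · right; right
    have := congrArg (fun z => tr h0 a * z) h
    simp only [back] at this
    rw [hτ, ← this, mul_one]

end Pool.Agent.H359.IGR
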