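import Pool.Agent.H359.IGR.Base
import Pool.Agent.H359.IGR.Triv

/-!
# Computations in the partition monoid
-/

namespace Pool.Agent.H359.IGR

open Pool.Agent.H213 RkMonoid Relation PM Module

section lk

variable {n : ℕ}

open Classical in
/-- labels -/
noncomputable def lab (x1 x2 y1 y2 : Fin n) (p : Bool × Fin n) : ℕ :=
  if p.1 = true then (if p.2 = y1 then 1 else if p.2 = y2 then 2 else 0)
  else (if p.2 = x1 then 1 else if p.2 = x2 then 2 else 0)

/-- the partition with the two nontrivial blocks `{x1, y1'}`, `{x2, y2'}` -/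
def lk (x1 x2 y1 y2 : Fin n) : PM n where
  r p q := p = q ∨ (lab x1 x2 y1 y2 p = lab x1 x2 y1 y2 q ∧ lab x1 x2 y1 y2 p ≠ 0)
  eqv := by
    refine ⟨fun _ => Or.inl rfl, ?_, ?_⟩
    · rintro p q (rfl | ⟨h1, h2⟩)
      · exact Or.inl rfl
      · exact Or.inr ⟨h1.symm, h1 ▸ h2⟩
    · rintro p q s (rfl | ⟨h1, h2⟩) (rfl | ⟨h3, h4⟩)
      · exact Or.inl rfl
      · exact Or.inr ⟨h3, h4⟩
      · exact Or.inr ⟨h1, h2⟩
      · exact Or.inr ⟨h1.trans h3, h2⟩

theorem mem_C_lk {x1 x2 y1 y2 : Fin n} (hx : x1 ≠ x2) (hy : y1 ≠ y2) {f g : Vec n} :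
    (f, g) ∈ (lk x1 x2 y1 y2).C ↔ f x1 = g y1 ∧ f x2 = g y2 := by
  classical
  constructor
  · intro h
    have h1 := h (false, x1) (true, y1) (Or.inr (by simp [lab]))
    have h2 := h (false, x2) (true, y2) (Or.inr (by simp [lab, hx.symm, hy.symm]))
    exact ⟨by simpa using h1, by simpa using h2⟩
  · rintro ⟨h1, h2⟩ p q (rfl | ⟨h3, h4⟩)
    · rfl
    · obtain ⟨bp, ip⟩ := p
      obtain ⟨bq, iq⟩ := q
      have key : ∀ (b : Bool) (i : Fin n), lab x1 x2 y1 y2 (b, i) ≠ 0 →
          ev f g (b, i) = if lab x1 x2 y1 y2 (b, i) = 1 then f x1 else f x2 := by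
        intro b i
        cases b
        · simp only [lab, ev_false]
          by_cases e1 : i = x1
          · simp [e1]
          · by_cases e2 : i = x2
            · subst e2; simp [e1]
            · simp [e1, e2]
        · simp only [lab, ev_true]
          by_cases e1 : i = y1
          · simp [e1, h1]
          · by_cases e2 : i = y2
            · subst e2; simp [e1, h2]
            · simp [e1, e2]
      rw [key bp ip h4, key bq iq (h3 ▸ h4), h3]

end lk

variable {n : ℕ} [hn : Fact (7 ≤ n)]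

/-- the base idempotent of rank two -/
def h0 : PM n := Es (cs {0, 1})

theorem mem_C_h0 {f g : Vec n} : (f, g) ∈ (h0 : PM n).C ↔ f (c 0) = g (c 0) ∧ f (c 1) = g (c 1) := by
  unfold h0 cs
  rw [mem_C_Es]
  constructor
  · intro h
    exact ⟨h _ ⟨0, by simp, rfl⟩, h _ ⟨1, by simp, rfl⟩⟩
  · rintro ⟨h1, h2⟩ _ ⟨k, hk, rfl⟩
    simp only [Finset.coe_insert, Finset.coe_singleton, Set.mem_insert_iff, Set.mem_singleton_iff] at hk
    rcases hk with rfl | rfl
    · exact h1
    · exact h2

theorem rk_h0 : rk (h0 : PM n) = 2 := by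
  unfold h0; rw [rk_cs]; rfl

theorem c01 : (c 0 : Fin n) ≠ c 1 := c_ne (by decide)

theorem triv_conn (a : PM n) (ha : rk a = 2) : ∃ m, rk (a * m * h0) = 2 := by
  classical
  set J := topRep a with hJ
  have h1 : rk (Es J * a) = rk a := rk_topRep_right a
  have h2 : rk (Es J * a) = rk (Es J) := rk_topRep_left a
  have ho : OmS J (Es J * a) := ⟨by rw [← mul_assoc, Es_idem], h2⟩
  have hcard : Nat.card J = 2 := by rw [← rk_Es, ← h2, h1, ha]
  obtain ⟨k1, k2, hk, hJ2⟩ : ∃ k1 k2 : Fin n, k1 ≠ k2 ∧ J = {k1, k2} := by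
    have : J.ncard = 2 := by rw [← hcard]; exact (_root_.Nat.card_coe_set_eq J).symm
    exact Set.ncard_eq_two.1 this
  obtain ⟨t, ht⟩ := ho.exists_tr
  have hk1 : k1 ∈ J := by rw [hJ2]; simp
  have hk2 : k2 ∈ J := by rw [hJ2]; simp
  set i1 := t ⟨k1, hk1⟩ with hi1
  set i2 := t ⟨k2, hk2⟩ with hi2
  have hi : i1 ≠ i2 := by
    intro h
    have := ho.tr_inj ht h
    exact hk (congrArg Subtype.val this)
  have ht1 : tb (Es J * a) k1 i1 := ht ⟨k1, hk1⟩
  have ht2 : tb (Es J * a) k2 i2 := ht ⟨k2, hk2⟩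
  refine ⟨lk i1 i2 (c 0) (c 1), ?_⟩
  have key : lk (c 0) (c 1) k1 k2 * (Es J * a) * lk i1 i2 (c 0) (c 1) = (h0 : PM n) := by
    apply ext_C
    intro f g
    rw [mem_C_mul, mem_C_h0]
    constructor
    · rintro ⟨h, h3, h4⟩
      obtain ⟨h', h5, h6⟩ := mem_C_mul.1 h3
      rw [mem_C_lk c01 hk] at h5
      rw [mem_C_lk hi c01] at h4
      have e1 := h6 _ _ ht1
      have e2 := h6 _ _ ht2
      simp only [ev_false, ev_true] at e1 e2
      exact ⟨by rw [h5.1, e1, h4.1], by rw [h5.2, e2, h4.2]⟩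
    · rintro ⟨h3, h4⟩
      let f' : Vec n := fun k => if k = k1 then f (c 0) else f (c 1)
      obtain ⟨g', hg'⟩ := ho.mem_dom' f'
      have e1 := hg' _ _ ht1
      have e2 := hg' _ _ ht2
      simp only [ev_false, ev_true] at e1 e2
      refine ⟨g', mem_C_mul.2 ⟨f', ?_, hg'⟩, ?_⟩
      · rw [mem_C_lk c01 hk]; simp [f', hk.symm]
      · rw [mem_C_lk hi c01, ← e1, ← e2]
        simp [f', hk.symm, h3, h4]
  have l1 : rk (a * lk i1 i2 (c 0) (c 1) * h0) ≤ 2 := by
    calc rk (a * lk i1 i2 (c 0) (c 1) * h0) ≤ rk (a * lk i1 i2 (c 0) (c 1)) := rk_mul_le_left _ _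
      _ ≤ rk a := rk_mul_le_left _ _
      _ = 2 := ha
  have l2 : 2 ≤ rk (a * lk i1 i2 (c 0) (c 1) * h0) := by
    calc 2 = rk ((lk (c 0) (c 1) k1 k2 * Es J) * (a * lk i1 i2 (c 0) (c 1) * h0)) := by
          have : (lk (c 0) (c 1) k1 k2 * Es J) * (a * lk i1 i2 (c 0) (c 1) * h0) =
              (lk (c 0) (c 1) k1 k2 * (Es J * a) * lk i1 i2 (c 0) (c 1)) * h0 := by simp only [mul_assoc]
          rw [this, key]
          have h5 : (h0 : PM n) * h0 = h0 := Es_idem _
          rw [h5, rk_h0]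
      _ ≤ _ := rk_mul_le_right _ _
  omega

theorem cs01 : (cs {0, 1} : Set (Fin n)) = {c 0, c 1} := by
  unfold cs; simp [Set.image_pair]

/-- the identity transversal -/
def idt : (cs {0, 1} : Set (Fin n)) → Fin n := fun k => k.1

/-- the swapped transversal -/
def swt : (cs {0, 1} : Set (Fin n)) → Fin n := fun k => if k.1 = c 0 then c 1 else c 0

theorem triv_h0 : Triv (h0 : PM n) := by
  refine ⟨Es_idem _, ?_, ?_⟩
  · intro a ha
    rw [rk_h0] at ha ⊢
    exact triv_conn a ha
  · intro g1 g2 g3 a1 a2 a3 b1 b2 b3 r1 r2 r3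
    have hom : ∀ g : PM n, h0 * g = g → rk g = rk (h0 : PM n) → OmS (cs {0, 1}) g :=
      fun g h h' => ⟨h, h'⟩
    have key : ∀ g : PM n, h0 * g = g → g * h0 = g → rk g = rk (h0 : PM n) →
        ∃ t : (cs {0, 1} : Set (Fin n)) → Fin n, Tr (cs {0, 1}) g t ∧
          (t = idt ∨ t = swt) := by
      intro g e1 e2 e3
      have ho := hom g e1 e3
      obtain ⟨t, ht⟩ := ho.exists_tr
      refine ⟨t, ht, ?_⟩
      have inJ : ∀ k, t k = c 0 ∨ t k = c 1 := by
        intro k
        by_contra hcon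
        have h1 : t k ∉ (cs {0, 1} : Set (Fin n)) := by
          rw [cs01]; simpa using hcon
        have h2 : g * ss (t k) = g := by
          rw [← e2, mul_assoc]
          congr 1
          exact Es_mul_ss h1
        rw [iso_iff] at h2
        exact h2.2 ⟨_, ht k⟩
      have m0 : (c 0 : Fin n) ∈ (cs {0, 1} : Set (Fin n)) := by rw [cs01]; simp
      have m1 : (c 1 : Fin n) ∈ (cs {0, 1} : Set (Fin n)) := by rw [cs01]; simp
      have hne : t ⟨c 0, m0⟩ ≠ t ⟨c 1, m1⟩ := by
        intro h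
        have := ho.tr_inj ht h
        exact c01 (congrArg Subtype.val this)
      have hex : ∀ k : (cs {0, 1} : Set (Fin n)), k = ⟨c 0, m0⟩ ∨ k = ⟨c 1, m1⟩ := by
        rintro ⟨k, hk⟩
        have hk' := hk
        rw [cs01] at hk'
        rcases hk' with h | h
        · left; exact Subtype.ext h
        · right; exact Subtype.ext h
      rcases inJ ⟨c 0, m0⟩ with h | h
      · left
        have h' : t ⟨c 1, m1⟩ = c 1 := by
          rcases inJ ⟨c 1, m1⟩ with h' | h'
          · exact absurd (h.trans h'.symm) hne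
          · exact h'
        funext k
        rcases hex k with rfl | rfl
        · exact h
        · exact h'
      · right
        have h' : t ⟨c 1, m1⟩ = c 0 := by
          rcases inJ ⟨c 1, m1⟩ with h' | h'
          · exact h'
          · exact absurd (h.trans h'.symm) hne
        funext k
        rcases hex k with rfl | rfl
        · simp [h, swt]
        · simp [h', swt, c01.symm]
    have same : ∀ g g' : PM n, h0 * g = g → h0 * g' = g' → g * h0 = g → g' * h0 = g' →
        rk g = rk (h0 : PM n) → rk g' = rk (h0 : PM n) → ∀ t : (cs {0, 1} : Set (Fin n)) → Fin n,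
        Tr (cs {0, 1}) g t → Tr (cs {0, 1}) g' t →
        (t = idt ∨ t = swt) → g = g' := by
      intro g g' e1 e1' e2 e2' e3 e3' t ht ht' hor
      have h1 := (hom g e1 e3).Es_unique (hom g' e1' e3') ht ht'
      have m0 : (c 0 : Fin n) ∈ (cs {0, 1} : Set (Fin n)) := by rw [cs01]; simp
      have m1 : (c 1 : Fin n) ∈ (cs {0, 1} : Set (Fin n)) := by rw [cs01]; simp
      have hr : Set.range t = cs {0, 1} := by
        rcases hor with rfl | rfl
        · exact Subtype.range_coe
        · apply Set.Subset.antisymm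
          · rintro _ ⟨k, rfl⟩
            unfold swt
            split_ifs
            · exact m1
            · exact m0
          · intro x hx
            have hx' : x ∈ ({c 0, c 1} : Set (Fin n)) := by rw [← cs01]; exact hx
            rcases hx' with h | h
            · exact ⟨⟨c 1, m1⟩, by rw [h]; simp [swt, c01.symm]⟩
            · exact ⟨⟨c 0, m0⟩, by rw [h]; simp [swt]⟩
      rw [hr] at h1
      have h2 : g * h0 = g' * h0 := h1
      rw [← e2, ← e2', h2]
    obtain ⟨t1, u1, v1⟩ := key g1 a1 b1 r1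
    obtain ⟨t2, u2, v2⟩ := key g2 a2 b2 r2
    obtain ⟨t3, u3, v3⟩ := key g3 a3 b3 r3
    by_cases h12 : t1 = t2
    · subst h12
      exact Or.inl (same _ _ a1 a2 b1 b2 r1 r2 t1 u1 u2 v1)
    · by_cases h23 : t2 = t3
      · subst h23
        exact Or.inr (Or.inl (same _ _ a2 a3 b2 b3 r2 r3 t2 u2 u3 v2))
      · have h13 : t1 = t3 := by
          clear same key hom
          rcases v1 with v1 | v1 <;> rcases v2 with v2 | v2 <;> rcases v3 with v3 | v3 <;>
            first
            | exact absurd (v1.trans v2.symm) h12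
            | exact absurd (v2.trans v3.symm) h23
            | exact v1.trans v3.symm
        subst h13
        exact Or.inr (Or.inr (same _ _ a1 a3 b1 b3 r1 r3 t1 u1 u3 v1))

end Pool.Agent.H359.IGR
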