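import Pool.Agent.H359.IGR.ChainRk
import Pool.Graph.R_pool_sql_team_seeded_620a6dc7.helper213_IG_.F3

/-!
# The base words
-/

namespace Pool.Agent.H359.IGR

open Pool.Agent.H213 RkMonoid Relation PM Module

section rank

variable {n : ℕ}

theorem rk_Es (A : Set (Fin n)) : rk (Es A) = Nat.card A := by
  classical
  have := Fintype.ofFinite A
  have h1 : (Es A).dom = ⊤ := by
    rw [eq_top_iff]
    intro f _
    exact mem_dom_Es f
  have h2 : (Es A).ker = LinearMap.ker (LinearMap.funLeft (ZMod 2) (ZMod 2) (Subtype.val : A → Fin n)) := by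
    ext f
    rw [mem_ker_Es, LinearMap.mem_ker]
    constructor
    · intro h
      ext k
      exact h k k.2
    · intro h i hi
      exact congrFun h ⟨i, hi⟩
  show (Es A).rank = _
  unfold rank
  rw [h1, h2]
  have h3 := LinearMap.finrank_range_add_finrank_ker
    (LinearMap.funLeft (ZMod 2) (ZMod 2) (Subtype.val : A → Fin n))
  rw [LinearMap.range_eq_top.2 (LinearMap.funLeft_surjective_of_injective _ _ _ Subtype.val_injective)] at h3
  rw [finrank_top] at h3 ⊢
  have h4 : finrank (ZMod 2) (A → ZMod 2) = Nat.card A := by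
    rw [Module.finrank_fintype_fun_eq_card, Nat.card_eq_fintype_card]
  have h5 : finrank (ZMod 2) (A → ZMod 2) + finrank (ZMod 2) (LinearMap.ker
    (LinearMap.funLeft (ZMod 2) (ZMod 2) (Subtype.val : A → Fin n))) = finrank (ZMod 2) (Vec n) := h3
  rw [h4] at h5
  exact Nat.sub_eq_of_eq_add (by rw [← h5])

theorem rk_one' : rk (1 : PM n) = n := by
  rw [← Es_univ, rk_Es]
  simp

end rank

variable {n : ℕ} [hn : Fact (7 ≤ n)]

/-- the distinguished points -/
def c (k : Fin 7) : Fin n := Fin.castLE hn.out k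

theorem c_inj : Function.Injective (c : Fin 7 → Fin n) := Fin.castLE_injective hn.out

theorem c_ne {a b : Fin 7} (h : a ≠ b) : (c a : Fin n) ≠ c b := fun h' => h (c_inj h')

/-- sets of distinguished points -/
def cs (A : Finset (Fin 7)) : Set (Fin n) := c '' (A : Set (Fin 7))

theorem mem_cs {A : Finset (Fin 7)} {k : Fin 7} : (c k : Fin n) ∈ cs A ↔ k ∈ A := by
  unfold cs
  rw [c_inj.mem_set_image]
  simp

theorem cs_inter (A B : Finset (Fin 7)) : (cs A : Set (Fin n)) ∩ cs B = cs (A ∩ B) := by
  unfold cs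
  rw [← Set.image_inter c_inj, Finset.coe_inter]

theorem rk_cs (A : Finset (Fin 7)) : rk (Es (cs A : Set (Fin n))) = A.card := by
  rw [rk_Es]
  unfold cs
  rw [Nat.card_image_of_injective c_inj]
  simp

/-- the letters -/
def xl (A : Finset (Fin 7)) : Idem (PM n) := ei (cs A)

@[simp] theorem coe_xl (A : Finset (Fin 7)) : ((xl A : Idem (PM n)) : PM n) = Es (cs A) := rfl

theorem xl_mul (A B : Finset (Fin 7)) :
    ((xl A : Idem (PM n)) : PM n) * ((xl B : Idem (PM n)) : PM n) = Es (cs (A ∩ B)) := by
  rw [coe_xl, coe_xl, Es_mul, cs_inter]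

/-- words in the letters -/
def xw (l : List (Finset (Fin 7))) : List (Idem (PM n)) := l.map xl

@[simp] theorem xw_append (l l' : List (Finset (Fin 7))) : (xw (l ++ l') : List (Idem (PM n))) = xw l ++ xw l' := by
  simp [xw]

/-- nonregular neighbours -/
def nrc (A B : Finset (Fin 7)) : Prop := (A ∩ B).card < A.card ∧ (A ∩ B).card < B.card

instance (A B : Finset (Fin 7)) : Decidable (nrc A B) := by unfold nrc; infer_instance

theorem chain_xw {l : List (Finset (Fin 7))} (h : List.IsChain nrc l) :
    List.IsChain (fun a b : Idem (PM n) => NR (a : PM n) (b : PM n)) (xw l) := by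
  unfold xw
  rw [List.isChain_map]
  refine h.imp ?_
  intro A B hAB
  unfold NR
  rw [xl_mul, coe_xl, coe_xl, rk_cs, rk_cs, rk_cs]
  exact hAB

/-- intersection -/
def inter (l : List (Finset (Fin 7))) : Finset (Fin 7) := l.foldr (· ∩ ·) Finset.univ

theorem mem_inter {l : List (Finset (Fin 7))} {k : Fin 7} : k ∈ inter l ↔ ∀ A ∈ l, k ∈ A := by
  induction l with
  | nil => simp [inter]
  | cons A l ih =>
    have : inter (A :: l) = A ∩ inter l := rfl
    rw [this, Finset.mem_inter, ih]
    simp

theorem vl_xw : ∀ {l : List (Finset (Fin 7))} (_ : l ≠ []), vl (xw l : List (Idem (PM n))) = Es (cs (inter l))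
  | [], h => absurd rfl h
  | [A], _ => by simp [xw, inter]
  | A :: B :: l, _ => by
    have ih := vl_xw (l := B :: l) (by simp)
    have : inter (A :: B :: l) = A ∩ inter (B :: l) := rfl
    rw [this, ← cs_inter, ← Es_mul, ← ih]
    simp [xw]

theorem rk_xw {l : List (Finset (Fin 7))} (h : l ≠ []) : rk (vl (xw l : List (Idem (PM n)))) = (inter l).card := by
  rw [vl_xw h, rk_cs]

def sL : Finset (Fin 7) := {2, 3, 5, 6}
def sE : Finset (Fin 7) := {0, 1, 2, 5, 6}
def sF : Finset (Fin 7) := {0, 1, 3, 5, 6}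
def sE1 : Finset (Fin 7) := {0, 1, 2, 5}
def sF1 : Finset (Fin 7) := {0, 1, 3, 5}
def sE2 : Finset (Fin 7) := {0, 1, 2}
def sF2 : Finset (Fin 7) := {0, 1, 3}
def sR : Finset (Fin 7) := {2, 3}

/-- repetition of a pair -/
def rep (a b : Finset (Fin 7)) (j : ℕ) : List (Finset (Fin 7)) := (List.replicate j [a, b]).flatten

@[simp] theorem rep_zero (a b : Finset (Fin 7)) : rep a b 0 = [] := rfl

theorem rep_succ (a b : Finset (Fin 7)) (j : ℕ) : rep a b (j + 1) = a :: b :: rep a b j := rfl

@[simp] theorem rep_length (a b : Finset (Fin 7)) (j : ℕ) : (rep a b j).length = 2 * j := by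
  induction j with
  | zero => rfl
  | succ j ih => rw [rep_succ]; simp [ih]; ring

theorem mem_rep {a b x : Finset (Fin 7)} {j : ℕ} (h : x ∈ rep a b j) : x = a ∨ x = b := by
  induction j with
  | zero => simp at h
  | succ j ih =>
    rw [rep_succ] at h
    simp only [List.mem_cons] at h
    rcases h with h | h | h
    · exact Or.inl h
    · exact Or.inr h
    · exact ih h

/-- the middle part of the base word -/
def bmid (j : ℕ) : List (Finset (Fin 7)) := [sE, sF, sE, sF] ++ rep sE1 sF1 j ++ rep sE2 sF2 j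

/-- the base word -/
def bas (j : ℕ) : List (Finset (Fin 7)) := [sL] ++ bmid j ++ [sR]

theorem chain_rep {a b : Finset (Fin 7)} {tl : List (Finset (Fin 7))} (h1 : nrc a b) (h2 : nrc b a)
    (h3 : List.IsChain nrc (b :: tl)) (j : ℕ) : List.IsChain nrc (b :: (rep a b j ++ tl)) := by
  induction j with
  | zero => simpa using h3
  | succ j ih =>
    rw [rep_succ, List.cons_append, List.cons_append, List.isChain_cons_cons, List.isChain_cons_cons]
    exact ⟨h2, h1, ih⟩

theorem chain_bas (k : ℕ) : List.IsChain nrc (bas (k + 1)) := by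
  have e : bas (k + 1) = sL :: sE :: sF :: sE :: sF :: sE1 :: sF1 ::
      (rep sE1 sF1 k ++ (sE2 :: sF2 :: (rep sE2 sF2 k ++ [sR]))) := by
    unfold bas bmid
    rw [rep_succ, rep_succ]
    simp
  rw [e]
  have t1 : List.IsChain nrc (sF2 :: (rep sE2 sF2 k ++ [sR])) := by
    apply chain_rep (by decide) (by decide)
    rw [List.isChain_cons_cons]
    exact ⟨by decide, List.isChain_singleton _⟩
  have t2 : List.IsChain nrc (sF1 :: (rep sE1 sF1 k ++ (sE2 :: sF2 :: (rep sE2 sF2 k ++ [sR])))) := by
    apply chain_rep (by decide) (by decide)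
    rw [List.isChain_cons_cons, List.isChain_cons_cons]
    exact ⟨by decide, by decide, t1⟩
  simp only [List.isChain_cons_cons]
  exact ⟨by decide, by decide, by decide, by decide, by decide, by decide, t2⟩

theorem card_inter_ge {l : List (Finset (Fin 7))} {T : Finset (Fin 7)} (h : ∀ A ∈ l, T ⊆ A) :
    T.card ≤ (inter l).card := by
  apply Finset.card_le_card
  intro k hk
  rw [mem_inter]
  intro A hA
  exact h A hA hk

theorem card_inter_le {l : List (Finset (Fin 7))} {T : List (Finset (Fin 7))} (h : ∀ A ∈ T, A ∈ l) :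
    (inter l).card ≤ (inter T).card := by
  apply Finset.card_le_card
  intro k hk
  rw [mem_inter] at hk ⊢
  intro A hA
  exact hk A (h A hA)

theorem bas_ne (j : ℕ) : bas j ≠ [] := by simp [bas]

/-- The data extracted from the factorization of a word equal to the base word. -/
theorem fac (k : ℕ) {w : List (Idem (PM n))} (hw : mkw w = mkw (xw (bas (k + 1)) : List (Idem (PM n)))) :
    ∃ (P1 P2 P5 P6 P7 P8 P9 α β γ : List (Idem (PM n))),
      P1 <+: w ∧ P2 <+: w ∧ P5 <+: w ∧ P6 <+: w ∧ P7 <+: w ∧ P8 <+: w ∧ P9 <+: w ∧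
      P9 = P1 ++ α ∧ P7 = P1 ++ β ∧ P7 = P2 ++ γ ∧
      4 ≤ rk (vl P1) ∧ rk (vl P2) ≤ 3 ∧ 2 ≤ rk (vl P5) ∧ rk (vl P6) ≤ 1 ∧ 1 ≤ rk (vl P7) ∧
      rk (vl P8) = 0 ∧ 2 ≤ rk (vl α) ∧ 3 ≤ rk (vl β) ∧ rk (vl γ) ≤ 3 ∧
      P6.length + (2 * k + 1) ≤ P7.length ∧ P8.length + (2 * k + 1) ≤ P9.length := by
  obtain ⟨V, hV, hlen, hne, hrk⟩ := exists_fact (chain_xw (chain_bas k)) (by
    unfold xw; simp [bas_ne]) hw
  have hl : V.length = 4 * k + 10 := by
    rw [hlen]; unfold xw bas bmid
    simp; ring
  -- prefixes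
  have pre : ∀ i, (V.take i).flatten <+: w := by
    intro i
    refine ⟨(V.drop i).flatten, ?_⟩
    rw [← List.flatten_append, List.take_append_drop, hV]
  have seg : ∀ i l, (V.take (i + l)).flatten = (V.take i).flatten ++ ((V.drop i).take l).flatten := by
    intro i l
    rw [← List.flatten_append]
    congr 1
    rw [List.take_add]
  have lenseg : ∀ (U : List (List (Idem (PM n)))), (∀ v ∈ U, v ≠ []) → U.length ≤ U.flatten.length := by
    intro U hU
    induction U with
    | nil => simp
    | cons u U ih =>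
      have h1 := ih (fun v hv => hU v (List.mem_cons_of_mem _ hv))
      have h2 := List.length_pos_iff.2 (hU u (by simp))
      simp only [List.flatten_cons, List.length_append, List.length_cons]
      omega
  have lens : ∀ i l, i + l ≤ V.length → (V.take i).flatten.length + l ≤ (V.take (i + l)).flatten.length := by
    intro i l h
    rw [seg, List.length_append]
    have h1 := lenseg ((V.drop i).take l) (fun v hv => hne v (List.mem_of_mem_drop (List.mem_of_mem_take hv)))
    rw [List.length_take, List.length_drop] at h1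
    omega
  have rkt : ∀ i, rk (vl (V.take i).flatten) = rk (vl ((xw (bas (k + 1)) : List (Idem (PM n))).take i)) := by
    intro i
    have := hrk 0 i
    simpa using this
  have tk : ∀ i l, ((xw (bas (k + 1)) : List (Idem (PM n))).drop i).take l = xw (((bas (k + 1)).drop i).take l) := by
    intro i l
    unfold xw
    rw [List.map_take, List.map_drop]
  have tk0 : ∀ l, (xw (bas (k + 1)) : List (Idem (PM n))).take l = xw ((bas (k + 1)).take l) := by
    intro l
    unfold xw
    rw [List.map_take]
  have e1 : (bas (k + 1)).take 1 = [sL] := rfl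
  have e2 : (bas (k + 1)).take 2 = [sL, sE] := rfl
  have e5 : (bas (k + 1)).take 5 = [sL, sE, sF, sE, sF] := rfl
  have e6 : (bas (k + 1)).take 6 = [sL, sE, sF, sE, sF, sE1] := rfl
  have b7 : bas (k + 1) = ([sL, sE, sF, sE, sF] ++ rep sE1 sF1 (k + 1)) ++ (rep sE2 sF2 (k + 1) ++ [sR]) := by
    simp [bas, bmid]
  have b8 : bas (k + 1) = ([sL, sE, sF, sE, sF] ++ rep sE1 sF1 (k + 1) ++ [sE2]) ++
      (sF2 :: rep sE2 sF2 k ++ [sR]) := by
    simp [bas, bmid, rep_succ]
  have e7 : (bas (k + 1)).take (2 * k + 7) = [sL, sE, sF, sE, sF] ++ rep sE1 sF1 (k + 1) := by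
    rw [b7]; exact List.take_left' (by simp; ring)
  have e8 : (bas (k + 1)).take (2 * k + 8) = [sL, sE, sF, sE, sF] ++ rep sE1 sF1 (k + 1) ++ [sE2] := by
    rw [b8]; exact List.take_left' (by simp; ring)
  have e9 : ((bas (k + 1)).drop 1).take (4 * k + 8) = bmid (k + 1) := by
    have : (bas (k + 1)).drop 1 = bmid (k + 1) ++ [sR] := rfl
    rw [this]; exact List.take_left' (by simp [bmid]; ring)
  have e10 : ((bas (k + 1)).drop 1).take (2 * k + 6) = [sE, sF, sE, sF] ++ rep sE1 sF1 (k + 1) := by
    have : (bas (k + 1)).drop 1 = ([sE, sF, sE, sF] ++ rep sE1 sF1 (k + 1)) ++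
      (rep sE2 sF2 (k + 1) ++ [sR]) := by simp [bas, bmid]
    rw [this]; exact List.take_left' (by simp; ring)
  have e11 : ((bas (k + 1)).drop 2).take (2 * k + 5) = [sF, sE, sF] ++ rep sE1 sF1 (k + 1) := by
    have : (bas (k + 1)).drop 2 = ([sF, sE, sF] ++ rep sE1 sF1 (k + 1)) ++
      (rep sE2 sF2 (k + 1) ++ [sR]) := by simp [bas, bmid]
    rw [this]; exact List.take_left' (by simp; ring)
  refine ⟨(V.take 1).flatten, (V.take 2).flatten, (V.take 5).flatten, (V.take 6).flatten,
    (V.take (2 * k + 7)).flatten, (V.take (2 * k + 8)).flatten, (V.take (4 * k + 9)).flatten,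
    ((V.drop 1).take (4 * k + 8)).flatten, ((V.drop 1).take (2 * k + 6)).flatten,
    ((V.drop 2).take (2 * k + 5)).flatten, pre _, pre _, pre _, pre _, pre _, pre _, pre _,
    ?_, ?_, ?_, ?_, ?_, ?_, ?_, ?_, ?_, ?_, ?_, ?_, ?_, ?_⟩
  · rw [← seg]; congr 2; ring
  · rw [← seg]; congr 2; ring
  · rw [← seg]; congr 2; ring
  · rw [rkt, tk0, e1, rk_xw (by simp)]; decide
  · rw [rkt, tk0, e2, rk_xw (by simp)]; decide
  · rw [rkt, tk0, e5, rk_xw (by simp)]; decide
  · rw [rkt, tk0, e6, rk_xw (by simp)]; decide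
  · rw [rkt, tk0, e7, rk_xw (by simp)]
    refine le_trans ?_ (card_inter_ge (T := {5}) ?_)
    · simp
    · intro A hA
      rw [List.mem_append] at hA
      rcases hA with hA | hA
      · simp only [List.mem_cons, List.not_mem_nil, or_false] at hA
        rcases hA with rfl | rfl | rfl | rfl | rfl <;> decide
      · rcases mem_rep hA with rfl | rfl <;> decide
  · rw [rkt, tk0, e8, rk_xw (by simp)]
    have : (inter ([sL, sE, sF, sE, sF] ++ rep sE1 sF1 (k + 1) ++ [sE2])).card ≤ (inter [sL, sF, sE2]).card := by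
      apply card_inter_le
      intro A hA
      simp only [List.mem_cons, List.not_mem_nil, or_false] at hA
      rcases hA with rfl | rfl | rfl <;> simp
    have h0 : (inter [sL, sF, sE2]).card = 0 := by decide
    omega
  · rw [hrk, tk, e9, rk_xw (by simp [bmid])]
    refine le_trans ?_ (card_inter_ge (T := {0, 1}) ?_)
    · decide
    · intro A hA
      unfold bmid at hA
      simp only [List.mem_append] at hA
      rcases hA with (hA | hA) | hA
      · simp only [List.mem_cons, List.not_mem_nil, or_false] at hA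
        rcases hA with rfl | rfl | rfl | rfl <;> decide
      · rcases mem_rep hA with rfl | rfl <;> decide
      · rcases mem_rep hA with rfl | rfl <;> decide
  · rw [hrk, tk, e10, rk_xw (by simp)]
    refine le_trans ?_ (card_inter_ge (T := {0, 1, 5}) ?_)
    · decide
    · intro A hA
      simp only [List.mem_append] at hA
      rcases hA with hA | hA
      · simp only [List.mem_cons, List.not_mem_nil, or_false] at hA
        rcases hA with rfl | rfl | rfl | rfl <;> decide
      · rcases mem_rep hA with rfl | rfl <;> decide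
  · rw [hrk, tk, e11, rk_xw (by simp)]
    refine le_trans (card_inter_le (T := [sF, sE, sE1]) ?_) (by decide)
    intro A hA
    simp only [List.mem_cons, List.not_mem_nil, or_false] at hA
    rcases hA with rfl | rfl | rfl <;> simp [rep_succ]
  · have := lens 6 (2 * k + 1) (by omega)
    have e : 6 + (2 * k + 1) = 2 * k + 7 := by ring
    rw [e] at this
    exact this
  · have := lens (2 * k + 8) (2 * k + 1) (by omega)
    have e : 2 * k + 8 + (2 * k + 1) = 4 * k + 9 := by ring
    rw [e] at this
    exact this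

end Pool.Agent.H359.IGR
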