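import Pool.Graph.R_pool_sql_team_seeded_620a6dc7.helper213_IG_.Chain

/-!
# Ranks of the segments of equal words
-/

namespace Pool.Agent.H359.IGR

open Pool.Agent.H213 RkMonoid Relation

variable {S : Type*} [RkMonoid S]

theorem chn_rk_take : ∀ (us : List (IG S)) (t : IG S) (Y : List (IG S)), Chn t us Y →
    ∀ (z : S) (k : ℕ), rk (z * val (Y.take k).prod) = rk (z * val ((t :: us).take k).prod)
  | us, t, Y, h, z, 0 => by simp
  | us, t, [], h, z, k + 1 => by cases us <;> simp [Chn] at h
  | [], t, y :: ys, h, z, k + 1 => by
    have h1 : ys = [] := h.1
    have h2 : t = y := h.2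
    subst h1 h2
    rfl
  | u :: us, t, y :: ys, h, z, k + 1 => by
    obtain ⟨t', h1, h2⟩ := h
    cases k with
    | zero => simpa using (h1.rk_left z).symm
    | succ k =>
      have ih := chn_rk_take us t' ys h2 (z * val y) (k + 1)
      have h3 : val t * val u = val y * val t' := by
        rw [← map_mul, ← map_mul]; exact congrArg val h1.mul_eq
      rw [List.take_succ_cons, List.prod_cons, map_mul, ← mul_assoc, ih]
      simp only [List.take_succ_cons, List.prod_cons, map_mul]
      congr 1
      calc z * val y * (val t' * val (List.take k us).prod)
          = z * (val y * val t') * val (List.take k us).prod := by simp only [mul_assoc]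
        _ = _ := by rw [← h3]; simp only [mul_assoc]

theorem chn_rk_seg : ∀ (us : List (IG S)) (t : IG S) (Y : List (IG S)), Chn t us Y →
    ∀ (i k : ℕ), rk (val ((Y.drop i).take k).prod) = rk (val (((t :: us).drop i).take k).prod)
  | us, t, Y, h, 0, k => by simpa using chn_rk_take us t Y h 1 k
  | us, t, [], h, i + 1, k => by cases us <;> simp [Chn] at h
  | [], t, y :: ys, h, i + 1, k => by
    have h1 : ys = [] := h.1
    have h2 : t = y := h.2
    subst h1 h2
    rfl
  | u :: us, t, y :: ys, h, i + 1, k => by
    obtain ⟨t', h1, h2⟩ := h
    have ih := chn_rk_seg us t' ys h2 i k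
    rw [List.drop_succ_cons, ih, List.drop_succ_cons]
    cases i with
    | zero =>
      cases k with
      | zero => simp
      | succ k =>
        simp only [List.drop_zero, List.take_succ_cons, List.prod_cons, map_mul]
        exact (h1.rk_right _).symm
    | succ i => rfl

/-- the factorization of a word equal to a product of letters `X` with nonregular neighbours -/
theorem exists_fact {X : List (Idem S)} (hX : List.IsChain (fun a b : Idem S => NR (a : S) (b : S)) X)
    (hne : X ≠ []) {w : List (Idem S)} (hw : mkw w = mkw X) :
    ∃ V : List (List (Idem S)), V.flatten = w ∧ V.length = X.length ∧ (∀ v ∈ V, v ≠ []) ∧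
      ∀ i k, rk (vl ((V.drop i).take k).flatten) = rk (vl ((X.drop i).take k)) := by
  have hred : ∀ X : List (Idem S), List.IsChain (fun a b : Idem S => NR (a : S) (b : S)) X →
      redF X = X.map (fun a => [a]) := by
    intro X hX
    induction X with
    | nil => rfl
    | cons a X ih =>
      have h1 := ih hX.tail
      show insF [a] (redF X) = _
      rw [h1]
      cases X with
      | nil => simp [insF]
      | cons b X =>
        rw [List.isChain_cons_cons] at hX
        simp only [List.map_cons]
        rw [insF, if_neg]
        rw [regW_append_iff (regW_singleton a) (regW_singleton b), not_not]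
        simpa [vl_singleton] using hX.1
  cases X with
  | nil => exact absurd rfl hne
  | cons a X =>
    have h1 : redF (a :: X) = [a] :: X.map (fun a => [a]) := by rw [hred _ hX]; rfl
    have h2 := (mkw_eq_iff_chn h1).1 hw.symm
    refine ⟨redF w, (redF_spec w).2, ?_, fun v hv => ((redF_spec w).1.1 v hv).ne_nil, ?_⟩
    · have := h2.length
      simpa using this
    · intro i k
      have h3 := chn_rk_seg _ _ _ h2 i k
      rw [vl_eq, vl_eq, mkw_flatten]
      rw [← List.map_drop, ← List.map_take] at h3
      rw [h3]
      congr 2
      have h4 : mkw [a] :: (X.map (fun a => [a])).map mkw = ((a :: X).map (fun a => [a])).map mkw := rfl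
      rw [h4, ← List.map_drop, ← List.map_take, ← List.map_drop, ← List.map_take]
      rw [← mkw_flatten]
      congr 1
      generalize (List.drop i (a :: X)).take k = L
      induction L with
      | nil => rfl
      | cons b L ih => simp [ih]

end Pool.Agent.H359.IGR
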