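import Mathlib

/-!
# Integration of additive functionals over a finite complete rewriting system

`RS G R w z w'`: the word `w` reduces to `w'`, and the sum of the values of the functional `G` along
the reduction is `z`.
-/

namespace Pool.Agent.H359.IGR

open Relation

variable {A M : Type*} [AddCommGroup M]

/-- one rewriting step -/
def Stp (R : List A → List A → Prop) (u v : List A) : Prop :=
  ∃ p q l r, R l r ∧ u = p ++ l ++ q ∧ v = p ++ r ++ q

theorem Stp.ctx {R : List A → List A → Prop} {u v : List A} (h : Stp R u v) (p q : List A) :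
    Stp R (p ++ u ++ q) (p ++ v ++ q) := by
  obtain ⟨p', q', l, r, h1, rfl, rfl⟩ := h
  exact ⟨p ++ p', q' ++ q, l, r, h1, by simp, by simp⟩

/-- reductions with a weight -/
inductive RS (R : List A → List A → Prop) (G : List A → List A → List A → List A → M) :
    List A → M → List A → Prop
  | refl (w : List A) : RS R G w 0 w
  | step (p q l r w' : List A) (z : M) (h : R l r) (h2 : RS R G (p ++ r ++ q) z w') :
      RS R G (p ++ l ++ q) (G p l r q + z) w'

section

variable {R : List A → List A → Prop} {G : List A → List A → List A → List A → M}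

theorem RS.red {w w' : List A} {z : M} (h : RS R G w z w') : ReflTransGen (Stp R) w w' := by
  induction h with
  | refl w => exact ReflTransGen.refl
  | step p q l r w' z h _ ih => exact ReflTransGen.head ⟨p, q, l, r, h, rfl, rfl⟩ ih

theorem RS.trans {w w' w'' : List A} {z z' : M} (h : RS R G w z w') (h' : RS R G w' z' w'') :
    RS R G w (z + z') w'' := by
  induction h with
  | refl w => simpa using h'
  | step p q l r w' z h _ ih =>
    rw [add_assoc]
    exact RS.step p q l r _ _ h (ih h')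

variable (R G) in
/-- The hypotheses on a functional: `Sm` is the class of small words. -/
structure Fun (Sm : List A → Prop) : Prop where
  /-- small words are closed under reduction -/
  sm_red : ∀ u v, Sm u → Stp R u v → Sm v
  add : ∀ P Q t t' t'', Sm t → ReflTransGen (Stp R) t t' → ReflTransGen (Stp R) t' t'' →
    G P t t' Q + G P t' t'' Q = G P t t'' Q
  ctx : ∀ P Q a b l r, R l r → Sm (a ++ l ++ b) →
    G P (a ++ l ++ b) (a ++ r ++ b) Q = G (P ++ a) l r (b ++ Q)
  rt : ∀ P Q x l r l' r', R l r → R l' r' → G P l r (x ++ l' ++ Q) = G P l r (x ++ r' ++ Q)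
  lt : ∀ P Q x l r l' r', R l r → R l' r' → G (P ++ l ++ x) l' r' Q = G (P ++ r ++ x) l' r' Q
  /-- overlaps of two left hand sides are small -/
  ov : ∀ a l b r a' l' b' r', R l r → R l' r' → a ++ l ++ b = a' ++ l' ++ b' →
    (a ++ l ++ b).length ≤ l.length + l'.length → Sm (a ++ l ++ b)

theorem Fun.self {Sm : List A → Prop} (hG : Fun R G Sm) {P Q t : List A} (h : Sm t) : G P t t Q = 0 := by
  have := hG.add P Q t t t h ReflTransGen.refl ReflTransGen.refl
  simpa using this

theorem Fun.window {Sm : List A → Prop} (hG : Fun R G Sm) {t t' : List A} (h : Sm t)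
    (hr : ReflTransGen (Stp R) t t') (P Q : List A) : RS R G (P ++ t ++ Q) (G P t t' Q) (P ++ t' ++ Q) := by
  induction hr using ReflTransGen.head_induction_on with
  | refl => rw [hG.self h]; exact RS.refl _
  | head h1 h2 ih =>
    obtain ⟨a, b, l, r, h3, rfl, rfl⟩ := h1
    have h4 := ih (hG.sm_red _ _ h ⟨a, b, l, r, h3, rfl, rfl⟩)
    have e1 : G P (a ++ l ++ b) t' Q = G (P ++ a) l r (b ++ Q) + G P (a ++ r ++ b) t' Q := by
      rw [← hG.ctx P Q a b l r h3 h]
      exact (hG.add P Q _ _ _ h (ReflTransGen.single ⟨a, b, l, r, h3, rfl, rfl⟩) h2).symm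
    have h5 := RS.step (G := G) (P ++ a) (b ++ Q) l r _ _ h3 (by
      rw [show P ++ a ++ r ++ (b ++ Q) = P ++ (a ++ r ++ b) ++ Q by simp]
      exact h4)
    rw [e1]
    rw [show P ++ (a ++ l ++ b) ++ Q = P ++ a ++ l ++ (b ++ Q) by simp]
    exact h5

/-- local confluence with weights -/
theorem Fun.local {Sm : List A → Prop} (hG : Fun R G Sm)
    (hconf : ∀ u v w, ReflTransGen (Stp R) u v → ReflTransGen (Stp R) u w →
      ∃ z, ReflTransGen (Stp R) v z ∧ ReflTransGen (Stp R) w z)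
    {p1 q1 l1 r1 p2 q2 l2 r2 : List A} (h1 : R l1 r1) (h2 : R l2 r2)
    (heq : p1 ++ l1 ++ q1 = p2 ++ l2 ++ q2) (hle : p1.length ≤ p2.length) :
    ∃ w y1 y2, RS R G (p1 ++ r1 ++ q1) y1 w ∧ RS R G (p2 ++ r2 ++ q2) y2 w ∧
      G p1 l1 r1 q1 + y1 = G p2 l2 r2 q2 + y2 := by
  -- a window containing both occurrences
  have main : ∀ (P Q t a b a' b' : List A), t = a ++ l1 ++ b → t = a' ++ l2 ++ b' →
      p1 = P ++ a → q1 = b ++ Q → p2 = P ++ a' → q2 = b' ++ Q → t.length ≤ l1.length + l2.length →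
      ∃ w y1 y2, RS R G (p1 ++ r1 ++ q1) y1 w ∧ RS R G (p2 ++ r2 ++ q2) y2 w ∧
      G p1 l1 r1 q1 + y1 = G p2 l2 r2 q2 + y2 := by
    intro P Q t a b a' b' ht ht' e1 e2 e3 e4 hlen
    have hs : Sm (a ++ l1 ++ b) := hG.ov a l1 b r1 a' l2 b' r2 h1 h2 (ht.symm.trans ht') (ht ▸ hlen)
    have hs' : Sm (a' ++ l2 ++ b') := by rw [← ht', ht]; exact hs
    have s1 : Stp R t (a ++ r1 ++ b) := ⟨a, b, l1, r1, h1, ht, rfl⟩
    have s2 : Stp R t (a' ++ r2 ++ b') := ⟨a', b', l2, r2, h2, ht', rfl⟩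
    obtain ⟨z, c1, c2⟩ := hconf _ _ _ (ReflTransGen.single s1) (ReflTransGen.single s2)
    have k1 := hG.window (hG.sm_red _ _ (ht ▸ hs) s1) c1 P Q
    have k2 := hG.window (hG.sm_red _ _ (ht ▸ hs) s2) c2 P Q
    refine ⟨P ++ z ++ Q, G P (a ++ r1 ++ b) z Q, G P (a' ++ r2 ++ b') z Q, ?_, ?_, ?_⟩
    · rw [e1, e2, show P ++ a ++ r1 ++ (b ++ Q) = P ++ (a ++ r1 ++ b) ++ Q by simp]
      exact k1
    · rw [e3, e4, show P ++ a' ++ r2 ++ (b' ++ Q) = P ++ (a' ++ r2 ++ b') ++ Q by simp]
      exact k2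
    · have f1 := hG.ctx P Q a b l1 r1 h1 hs
      have f2 := hG.ctx P Q a' b' l2 r2 h2 hs'
      rw [e1, e2, e3, e4, ← f1, ← f2]
      rw [← ht, ← ht']
      rw [hG.add P Q t _ z (ht ▸ hs) (ReflTransGen.single s1) c1,
        hG.add P Q t _ z (ht ▸ hs) (ReflTransGen.single s2) c2]
  rw [List.append_assoc, List.append_assoc] at heq
  rcases List.append_eq_append_iff.1 heq with ⟨x, hx1, hx2⟩ | ⟨x, hx1, hx2⟩
  · -- p2 = p1 ++ x, l1 ++ q1 = x ++ (l2 ++ q2)
    rcases List.append_eq_append_iff.1 hx2 with ⟨y, hy1, hy2⟩ | ⟨y, hy1, hy2⟩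
    · -- x = l1 ++ y, q1 = y ++ (l2 ++ q2): disjoint
      subst hx1 hy1
      have hq : q1 = y ++ l2 ++ q2 := by rw [hy2]; simp
      subst hq
      refine ⟨p1 ++ r1 ++ y ++ r2 ++ q2, G (p1 ++ r1 ++ y) l2 r2 q2 + 0,
        G p1 l1 r1 (y ++ r2 ++ q2) + 0, ?_, ?_, ?_⟩
      · rw [show p1 ++ r1 ++ (y ++ l2 ++ q2) = (p1 ++ r1 ++ y) ++ l2 ++ q2 by simp]
        exact RS.step _ _ _ _ _ _ h2 (RS.refl _)
      · rw [show p1 ++ (l1 ++ y) ++ r2 ++ q2 = p1 ++ l1 ++ (y ++ r2 ++ q2) by simp]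
        refine RS.step _ _ _ _ _ _ h1 ?_
        rw [show p1 ++ r1 ++ (y ++ r2 ++ q2) = p1 ++ r1 ++ y ++ r2 ++ q2 by simp]
        exact RS.refl _
      · rw [hG.rt p1 q2 y l1 r1 l2 r2 h1 h2]
        rw [show p1 ++ (l1 ++ y) = p1 ++ l1 ++ y by simp, hG.lt p1 q2 y l1 r1 l2 r2 h1 h2]
        rw [add_zero, add_zero, add_comm]
    · -- l1 = x ++ y, l2 ++ q2 = y ++ q1
      rcases List.append_eq_append_iff.1 hy2 with ⟨z, hz1, hz2⟩ | ⟨z, hz1, hz2⟩
      · -- y = l2 ++ z, q2 = z ++ q1
        refine main p1 q1 l1 [] [] x z (by simp) (by rw [hy1, hz1]; simp) (by simp) (by simp) hx1 hz2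
          (by omega)
      · -- l2 = y ++ z, q1 = z ++ q2
        refine main p1 q2 (l1 ++ z) [] z x [] (by simp) ?_ (by simp) hz2 hx1 (by simp) ?_
        · rw [hy1, hz1]; simp
        · rw [hz1]; simp
  · -- p1 = p2 ++ x, so x = []
    have hx : x = [] := by
      have := congrArg List.length hx1
      simp at this
      exact List.eq_nil_of_length_eq_zero (by omega)
    subst hx
    simp only [List.append_nil, List.nil_append] at hx1 hx2
    subst hx1
    -- l2 ++ q2 = l1 ++ q1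
    rcases List.append_eq_append_iff.1 hx2 with ⟨z, hz1, hz2⟩ | ⟨z, hz1, hz2⟩
    · -- l1 = l2 ++ z, q2 = z ++ q1
      refine main p1 q1 l1 [] [] [] z (by simp) (by rw [hz1]; simp) (by simp) (by simp) (by simp) hz2
        (by omega)
    · refine main p1 q2 l2 [] z [] [] (by simpa using hz1) (by simp) (by simp) hz2 (by simp) (by simp)
        (by omega)

/-- irreducible words -/
def Irr (R : List A → List A → Prop) (w : List A) : Prop := ∀ w', ¬ Stp R w w'

theorem exists_nf (hwf : WellFounded (fun u v => Stp R v u)) (w : List A) :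
    ∃ z n, RS R G w z n ∧ Irr R n := by
  induction w using hwf.induction with
  | _ w ih =>
    by_cases h : Irr R w
    · exact ⟨0, w, RS.refl _, h⟩
    · unfold Irr at h
      push Not at h
      obtain ⟨w', hw'⟩ := h
      obtain ⟨z, n, h1, h2⟩ := ih w' hw'
      obtain ⟨p, q, l, r, h3, rfl, rfl⟩ := hw'
      exact ⟨_, n, RS.step p q l r n z h3 h1, h2⟩

theorem Fun.unique {Sm : List A → Prop} (hG : Fun R G Sm)
    (hconf : ∀ u v w, ReflTransGen (Stp R) u v → ReflTransGen (Stp R) u w →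
      ∃ z, ReflTransGen (Stp R) v z ∧ ReflTransGen (Stp R) w z)
    (hwf : WellFounded (fun u v => Stp R v u)) (w : List A) :
    ∀ z1 n1 z2 n2, RS R G w z1 n1 → RS R G w z2 n2 → Irr R n1 → Irr R n2 → n1 = n2 ∧ z1 = z2 := by
  induction w using hwf.induction with
  | _ w ih =>
    have key : ∀ (p1 q1 l1 r1 p2 q2 l2 r2 n1 n2 : List A) (z1 z2 : M), R l1 r1 → R l2 r2 →
        w = p1 ++ l1 ++ q1 → w = p2 ++ l2 ++ q2 → p1.length ≤ p2.length →
        RS R G (p1 ++ r1 ++ q1) z1 n1 → RS R G (p2 ++ r2 ++ q2) z2 n2 → Irr R n1 → Irr R n2 →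
        n1 = n2 ∧ G p1 l1 r1 q1 + z1 = G p2 l2 r2 q2 + z2 := by
      intro p1 q1 l1 r1 p2 q2 l2 r2 n1 n2 z1 z2 h1 h2 e1 e2 hle s1 s2 i1 i2
      obtain ⟨w3, y1, y2, t1, t2, hy⟩ := hG.local hconf h1 h2 (e1.symm.trans e2) hle
      obtain ⟨z3, n3, t3, i3⟩ := exists_nf (G := G) hwf w3
      obtain ⟨a1, b1⟩ := ih (p1 ++ r1 ++ q1) ⟨p1, q1, l1, r1, h1, e1, rfl⟩ _ _ _ _ s1 (t1.trans t3) i1 i3
      obtain ⟨a2, b2⟩ := ih (p2 ++ r2 ++ q2) ⟨p2, q2, l2, r2, h2, e2, rfl⟩ _ _ _ _ s2 (t2.trans t3) i2 i3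
      refine ⟨a1.trans a2.symm, ?_⟩
      rw [b1, b2, ← add_assoc, ← add_assoc, hy]
    intro z1 n1 z2 n2 s1 s2 i1 i2
    generalize hw1 : w = w1 at s1
    generalize hw2 : w = w2 at s2
    cases s1 with
    | refl =>
      cases s2 with
      | refl => exact ⟨hw1.symm.trans hw2, rfl⟩
      | step p q l r w' z h h2 =>
        exfalso
        subst hw1
        exact i1 _ ⟨p, q, l, r, h, hw2, rfl⟩
    | step p1 q1 l1 r1 w1' z1' h1 t1 =>
      cases s2 with
      | refl =>
        exfalso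
        subst hw2
        exact i2 _ ⟨p1, q1, l1, r1, h1, hw1, rfl⟩
      | step p2 q2 l2 r2 w2' z2' h2 t2 =>
        rcases le_total p1.length p2.length with hle | hle
        · exact key p1 q1 l1 r1 p2 q2 l2 r2 n1 n2 z1' z2' h1 h2 hw1 hw2 hle t1 t2 i1 i2
        · have := key p2 q2 l2 r2 p1 q1 l1 r1 n2 n1 z2' z1' h2 h1 hw2 hw1 hle t2 t1 i2 i1
          exact ⟨this.1.symm, this.2.symm⟩

/-- The functional is integrable. -/
theorem Fun.exists_pot {Sm : List A → Prop} (hG : Fun R G Sm)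
    (hconf : ∀ u v w, ReflTransGen (Stp R) u v → ReflTransGen (Stp R) u w →
      ∃ z, ReflTransGen (Stp R) v z ∧ ReflTransGen (Stp R) w z)
    (hwf : WellFounded (fun u v => Stp R v u)) :
    ∃ Φ : List A → M, ∀ w z w', RS R G w z w' → Φ w = z + Φ w' := by
  choose Z N h1 h2 using exists_nf (R := R) (G := G) hwf
  refine ⟨Z, fun w z w' h => ?_⟩
  exact (hG.unique hconf hwf w _ _ _ _ (h1 w) (h.trans (h1 w')) (h2 w) (h2 w')).2

end

section Two

variable {E S : Type*} [Monoid S]

/-- The hypotheses on a functional `D` on the words over `E` representing the elements of `S`. -/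
structure FunE (π : List E → S) (D : List E → List E → List E → List E → M) (Sm : List E → Prop) : Prop where
  sm : ∀ u v, Sm u → π u = π v → Sm v
  add : ∀ P Q t t' t'', Sm t → π t = π t' → π t' = π t'' → D P t t' Q + D P t' t'' Q = D P t t'' Q
  ctx : ∀ P Q a b t t', Sm (a ++ t ++ b) → π t = π t' →
    D P (a ++ t ++ b) (a ++ t' ++ b) Q = D (P ++ a) t t' (b ++ Q)
  inv : ∀ P P' Q Q' t t', Sm t → π t = π t' → π P = π P' → π Q = π Q' → D P t t' Q = D P' t t' Q'

/-- correction term -/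
def Crec (D : List E → List E → List E → List E → M) (f : E → List E) : List E → List E → M
  | _, [] => 0
  | p, e :: w => D p [e] (f e) w + Crec D f (p ++ [e]) w

/-- the part of the correction term coming from a window -/
def CQ (D : List E → List E → List E → List E → M) (f : E → List E) : List E → List E → List E → M
  | _, [], _ => 0
  | p, e :: w, q => D p [e] (f e) (w ++ q) + CQ D f (p ++ [e]) w q

theorem Crec_append (D : List E → List E → List E → List E → M) (f : E → List E) (t : List E) :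
    ∀ p q, Crec D f p (t ++ q) = CQ D f p t q + Crec D f (p ++ t) q := by
  induction t with
  | nil => intro p q; simp [CQ]
  | cons e t ih =>
    intro p q
    rw [List.cons_append, Crec, CQ, ih, add_assoc]
    simp

variable {π : List E → S} {D : List E → List E → List E → List E → M} {Sm : List E → Prop}

theorem Crec_inv (hD : FunE π D Sm) (hπ : ∀ u v, π (u ++ v) = π u * π v) {f : E → List E}
    (hf : ∀ e, π (f e) = π [e]) (hs : ∀ e : E, Sm [e]) (q : List E) :
    ∀ p p', π p = π p' → Crec D f p q = Crec D f p' q := by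
  induction q with
  | nil => intro p p' _; rfl
  | cons e q ih =>
    intro p p' h
    rw [Crec, Crec, ih (p ++ [e]) (p' ++ [e]) (by rw [hπ, hπ, h]),
      hD.inv p p' q q [e] (f e) (hs e) (hf e).symm h rfl]

theorem CQ_inv (hD : FunE π D Sm) (hπ : ∀ u v, π (u ++ v) = π u * π v) {f : E → List E}
    (hf : ∀ e, π (f e) = π [e]) (hs : ∀ e : E, Sm [e]) (t : List E) :
    ∀ p q q', π q = π q' → CQ D f p t q = CQ D f p t q' := by
  induction t with
  | nil => intro p q q' _; rfl
  | cons e t ih =>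
    intro p q q' h
    rw [CQ, CQ, ih (p ++ [e]) q q' h,
      hD.inv p p (t ++ q) (t ++ q') [e] (f e) (hs e) (hf e).symm rfl (by rw [hπ, hπ, h])]

theorem flatMap_pi (hπ : ∀ u v, π (u ++ v) = π u * π v) {f : E → List E}
    (hf : ∀ e, π (f e) = π [e]) (t : List E) : π (t.flatMap f) = π t := by
  induction t with
  | nil => simp
  | cons e t ih =>
    rw [List.flatMap_cons, hπ, ih, hf, ← hπ]; rfl

theorem CQ_aux (hD : FunE π D Sm) (hπ : ∀ u v, π (u ++ v) = π u * π v) {f : E → List E}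
    (hf : ∀ e, π (f e) = π [e]) (hs : ∀ e : E, Sm [e]) (p q : List E) (t : List E) :
    ∀ a a', π a = π a' → Sm (a' ++ t) →
      CQ D f (p ++ a) t q = D p (a' ++ t) (a' ++ t.flatMap f) q := by
  induction t with
  | nil =>
    intro a a' _ h
    have := hD.add p q (a' ++ []) (a' ++ []) (a' ++ []) h rfl rfl
    simp at this
    simp [CQ, this]
  | cons e t ih =>
    intro a a' ha h
    have h1 : π (a' ++ f e ++ t) = π (a' ++ [e] ++ t) := by rw [hπ, hπ, hπ, hπ, hf]
    have h' : Sm (a' ++ [e] ++ t) := by simpa using h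
    have h2 : Sm (a' ++ f e ++ t) := hD.sm _ _ h' h1.symm
    have e1 := ih (a ++ [e]) (a' ++ f e) (by rw [hπ, hπ, ha, hf]) h2
    have e2 := hD.ctx p q a' t [e] (f e) h' (hf e).symm
    have e3 := hD.inv (p ++ a) (p ++ a') (t ++ q) (t ++ q) [e] (f e) (hs e) (hf e).symm
      (by rw [hπ, hπ, ha]) rfl
    have e4 := hD.add p q (a' ++ [e] ++ t) (a' ++ f e ++ t) (a' ++ f e ++ t.flatMap f) h' h1.symm
      (by rw [hπ _ t, hπ _ (t.flatMap f), flatMap_pi hπ hf t])
    rw [CQ, e3, ← e2]
    have e5 : p ++ a ++ [e] = p ++ (a ++ [e]) := by simp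
    rw [e5, e1, e4]
    simp

theorem CQ_eq (hD : FunE π D Sm) (hπ : ∀ u v, π (u ++ v) = π u * π v) {f : E → List E}
    (hf : ∀ e, π (f e) = π [e]) (hs : ∀ e : E, Sm [e]) (t p q : List E) (h : Sm t) :
    CQ D f p t q = D p t (t.flatMap f) q := by
  have := CQ_aux hD hπ hf hs p q t [] [] rfl (by simpa using h)
  simpa using this

/-- Main theorem: over a finite complete rewriting system the functional `D` has a potential. -/
theorem exists_potential {R : List A → List A → Prop}
    (hconf : ∀ u v w, ReflTransGen (Stp R) u v → ReflTransGen (Stp R) u w →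
      ∃ z, ReflTransGen (Stp R) v z ∧ ReflTransGen (Stp R) w z)
    (hwf : WellFounded (fun u v => Stp R v u))
    (hπ : ∀ u v : List E, π (u ++ v) = π u * π v)
    (til : A → List E) (hat : E → List A)
    (hhat : ∀ e, π ((hat e).flatMap til) = π [e])
    (hR : ∀ l r, R l r → π (l.flatMap til) = π (r.flatMap til))
    (hcr : ∀ u v : List A, u ≠ [] → v ≠ [] → π (u.flatMap til) = π (v.flatMap til) →
      EqvGen (Stp R) u v)
    (hhne : ∀ e, hat e ≠ [])
    (hD : FunE π D Sm) (hs : ∀ e : E, Sm [e])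
    (hov : ∀ (l r l' r' t : List A), R l r → R l' r' → t.length ≤ l.length + l'.length → Sm (t.flatMap til)) :
    ∃ Ψ : List E → M, ∀ p q t t', Sm t → t ≠ [] → t' ≠ [] → π t = π t' →
      Ψ (p ++ t ++ q) = D p t t' q + Ψ (p ++ t' ++ q) := by
  have hred : ∀ u v : List A, ReflTransGen (Stp R) u v → π (u.flatMap til) = π (v.flatMap til) := by
    intro u v h
    induction h with
    | refl => rfl
    | tail _ h ih =>
      rw [ih]
      obtain ⟨p, q, l, r, h1, rfl, rfl⟩ := h
      simp only [List.flatMap_append, hπ, hR l r h1]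
  have hG : Fun R (fun P t t' Q => D (P.flatMap til) (t.flatMap til) (t'.flatMap til) (Q.flatMap til))
      (fun t => Sm (t.flatMap til)) := by
    refine ⟨?_, ?_, ?_, ?_, ?_, ?_⟩
    · intro u v h1 h2
      exact hD.sm _ _ h1 (hred _ _ (ReflTransGen.single h2))
    · intro P Q t t' t'' h1 h2 h3
      exact hD.add _ _ _ _ _ h1 (hred _ _ h2) (hred _ _ h3)
    · intro P Q a b l r h1 h2
      simp only [List.flatMap_append] at h2 ⊢
      exact hD.ctx _ _ _ _ _ _ h2 (hR l r h1)
    · intro P Q x l r l' r' h1 h2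
      simp only [List.flatMap_append]
      refine hD.inv _ _ _ _ _ _ ?_ (hR l r h1) rfl (by simp only [hπ, hR l' r' h2])
      exact hov l r l r l h1 h1 (by omega)
    · intro P Q x l r l' r' h1 h2
      simp only [List.flatMap_append]
      refine hD.inv _ _ _ _ _ _ ?_ (hR l' r' h2) (by simp only [hπ, hR l r h1]) rfl
      exact hov l' r' l' r' l' h2 h2 (by omega)
    · intro a l b r a' l' b' r' h1 h2 h3 h4
      exact hov l r l' r' _ h1 h2 h4
  obtain ⟨Φ, hΦ⟩ := hG.exists_pot hconf hwf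
  -- Church-Rosser
  have hCR : ∀ u v : List A, EqvGen (Stp R) u v → ∃ z, ReflTransGen (Stp R) u z ∧
      ReflTransGen (Stp R) v z := by
    intro u v h
    induction h with
    | rel x y h => exact ⟨y, ReflTransGen.single h, ReflTransGen.refl⟩
    | refl x => exact ⟨x, ReflTransGen.refl, ReflTransGen.refl⟩
    | symm x y _ ih => obtain ⟨z, h1, h2⟩ := ih; exact ⟨z, h2, h1⟩
    | trans x y z _ _ ih1 ih2 =>
      obtain ⟨a, h1, h2⟩ := ih1
      obtain ⟨b, h3, h4⟩ := ih2
      obtain ⟨c, h5, h6⟩ := hconf _ _ _ h2 h3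
      exact ⟨c, h1.trans h5, h4.trans h6⟩
  set f : E → List E := fun e => (hat e).flatMap til with hf
  have hfm : ∀ w : List E, (w.flatMap hat).flatMap til = w.flatMap f := by
    intro w
    rw [List.flatMap_assoc]
  have hfw : ∀ w : List E, π (w.flatMap f) = π w := by
    intro w
    induction w with
    | nil => simp
    | cons e w ih =>
      rw [List.flatMap_cons, hπ, ih, hhat, ← hπ]; rfl
  refine ⟨fun w => Φ (w.flatMap hat) + Crec D f [] w, ?_⟩
  intro p q t t' hst hne hne' htt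
  have hst' : Sm t' := hD.sm _ _ hst htt
  have hne1 : t.flatMap hat ≠ [] := by
    cases t with
    | nil => exact absurd rfl hne
    | cons e t => simp [hhne e]
  have hne2 : t'.flatMap hat ≠ [] := by
    cases t' with
    | nil => exact absurd rfl hne'
    | cons e t => simp [hhne e]
  obtain ⟨ν, hν1, hν2⟩ := hCR _ _ (hcr (t.flatMap hat) (t'.flatMap hat) hne1 hne2
    (by rw [hfm, hfm, hfw, hfw, htt]))
  have w1 := hΦ _ _ _ (hG.window (t := t.flatMap hat) (t' := ν)
    (by show Sm _; rw [hfm]; exact hD.sm _ _ hst (hfw t).symm) hν1 (p.flatMap hat) (q.flatMap hat))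
  have w2 := hΦ _ _ _ (hG.window (t := t'.flatMap hat) (t' := ν)
    (by show Sm _; rw [hfm]; exact hD.sm _ _ hst' (hfw t').symm) hν2 (p.flatMap hat) (q.flatMap hat))
  simp only [hfm] at w1 w2
  have hν3 : π (ν.flatMap til) = π t := by rw [← hred _ _ hν1, hfm, hfw]
  have i1 : D (p.flatMap f) (t.flatMap f) (ν.flatMap til) (q.flatMap f) =
      D p (t.flatMap f) (ν.flatMap til) q :=
    hD.inv _ _ _ _ _ _ (hD.sm _ _ hst (hfw t).symm) (by rw [hfw, hν3]) (hfw p) (hfw q)
  have i2 : D (p.flatMap f) (t'.flatMap f) (ν.flatMap til) (q.flatMap f) =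
      D p (t'.flatMap f) (ν.flatMap til) q :=
    hD.inv _ _ _ _ _ _ (hD.sm _ _ hst' (hfw t').symm) (by rw [hfw, hν3, htt]) (hfw p) (hfw q)
  rw [i1] at w1
  rw [i2] at w2
  have c1 := CQ_eq hD hπ hhat hs t p q hst
  have c2 := CQ_eq hD hπ hhat hs t' p q hst'
  have a1 := hD.add p q t (t.flatMap f) (ν.flatMap til) hst (hfw t).symm (by rw [hfw, hν3])
  have a2 := hD.add p q t' (t'.flatMap f) (ν.flatMap til) hst' (hfw t').symm (by rw [hfw, hν3, htt])
  have a3 := hD.add p q t t' (ν.flatMap til) hst htt (by rw [hν3, htt])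
  have c3 : CQ D f [] p (t ++ q) = CQ D f [] p (t' ++ q) :=
    CQ_inv hD hπ hhat hs p [] _ _ (by rw [hπ, hπ, htt])
  have c4 : Crec D f (p ++ t) q = Crec D f (p ++ t') q :=
    Crec_inv hD hπ hhat hs q _ _ (by rw [hπ, hπ, htt])
  have d1 : Crec D f [] (p ++ t ++ q) = CQ D f [] p (t ++ q) + (CQ D f p t q + Crec D f (p ++ t) q) := by
    rw [List.append_assoc, Crec_append, Crec_append]; simp
  have d2 : Crec D f [] (p ++ t' ++ q) = CQ D f [] p (t' ++ q) + (CQ D f p t' q + Crec D f (p ++ t') q) := by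
    rw [List.append_assoc, Crec_append, Crec_append]; simp
  have e1 : ((p ++ t ++ q).flatMap hat) = p.flatMap hat ++ t.flatMap hat ++ q.flatMap hat := by simp
  have e2 : ((p ++ t' ++ q).flatMap hat) = p.flatMap hat ++ t'.flatMap hat ++ q.flatMap hat := by simp
  simp only
  rw [e1, e2, w1, w2, d1, d2, c1, c2, c3, c4]
  rw [← a1] at a3
  rw [← a2] at a3
  have : D p (t.flatMap f) (ν.flatMap til) q = D p t t' q +
      (D p t' (t'.flatMap f) q + D p (t'.flatMap f) (ν.flatMap til) q) - D p t (t.flatMap f) q := by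
    rw [a3]; abel
  rw [this]
  abel

end Two

end Pool.Agent.H359.IGR
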