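import Pool.Agent.H359.IGR.Eqs
import Pool.Agent.H359.IGR.Squier

/-!
# The functional
-/

namespace Pool.Agent.H359.IGR

open Pool.Agent.H213 RkMonoid Relation PM

section Mu

variable {n : ℕ}

/-- The value of the part of the word `t` read while the rank of the prefix lies between `1` and `3`. -/
noncomputable def Mu : PM n → List (Idem (PM n)) → PM n
  | _, [] => 1
  | x, e :: t => if 1 ≤ rk x ∧ rk x ≤ 3 then (e : PM n) * Mu (x * e) t else Mu (x * e) t

theorem Mu_append (a : List (Idem (PM n))) : ∀ (x : PM n) (b : List (Idem (PM n))),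
    Mu x (a ++ b) = Mu x a * Mu (x * vl a) b := by
  induction a with
  | nil => intro x b; simp [Mu]
  | cons e a ih =>
    intro x b
    rw [List.cons_append, Mu, Mu, ih, vl_cons, ← mul_assoc x]
    split_ifs
    · simp only [mul_assoc]
    · rfl

theorem Mu_zero (t : List (Idem (PM n))) : ∀ {x : PM n}, rk x = 0 → Mu x t = 1 := by
  induction t with
  | nil => intro x _; rfl
  | cons e t ih =>
    intro x h
    rw [Mu, if_neg (by omega)]
    apply ih
    have := rk_mul_le_left x (e : PM n)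
    omega

theorem Mu_high (t : List (Idem (PM n))) : ∀ {x : PM n}, 4 ≤ rk (x * vl t) → Mu x t = 1 := by
  induction t with
  | nil => intro x _; rfl
  | cons e t ih =>
    intro x h
    have h1 := rk_mul_le_left x (vl (e :: t))
    rw [Mu, if_neg (by omega)]
    apply ih
    rwa [mul_assoc, ← vl_cons]

theorem Mu_mid (t : List (Idem (PM n))) : ∀ {x : PM n}, rk x ≤ 3 → 1 ≤ rk (x * vl t) → Mu x t = vl t := by
  induction t with
  | nil => intro x _ _; rfl
  | cons e t ih =>
    intro x h h'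
    have h1 := rk_mul_le_left x (vl (e :: t))
    have h2 := rk_mul_le_left x (e : PM n)
    rw [Mu, if_pos (by omega), vl_cons]
    congr 1
    apply ih (by omega)
    rwa [mul_assoc, ← vl_cons]

theorem split1 (t : List (Idem (PM n))) : ∀ {x : PM n}, 4 ≤ rk x → rk (x * vl t) ≤ 3 →
    ∃ a e b, t = a ++ e :: b ∧ 4 ≤ rk (x * vl a) ∧ rk (x * vl (a ++ [e])) ≤ 3 := by
  induction t with
  | nil => intro x h h'; simp at h'; omega
  | cons e t ih =>
    intro x h h'
    by_cases h2 : rk (x * (e : PM n)) ≤ 3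
    · exact ⟨[], e, t, rfl, by simpa using h, by simpa using h2⟩
    · obtain ⟨a, e', b, h3, h4, h5⟩ := ih (x := x * e) (by omega) (by rwa [mul_assoc, ← vl_cons])
      refine ⟨e :: a, e', b, by rw [h3]; rfl, ?_, ?_⟩
      · rwa [vl_cons, ← mul_assoc]
      · rwa [List.cons_append, vl_cons, ← mul_assoc]

theorem split0 (t : List (Idem (PM n))) : ∀ {x : PM n}, 1 ≤ rk x → rk (x * vl t) = 0 →
    ∃ a e b, t = a ++ e :: b ∧ 1 ≤ rk (x * vl a) ∧ rk (x * vl (a ++ [e])) = 0 := by
  induction t with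
  | nil => intro x h h'; simp at h'; omega
  | cons e t ih =>
    intro x h h'
    by_cases h2 : rk (x * (e : PM n)) = 0
    · exact ⟨[], e, t, rfl, by simpa using h, by simpa using h2⟩
    · obtain ⟨a, e', b, h3, h4, h5⟩ := ih (x := x * e) (by omega) (by rwa [mul_assoc, ← vl_cons])
      refine ⟨e :: a, e', b, by rw [h3]; rfl, ?_, ?_⟩
      · rwa [vl_cons, ← mul_assoc]
      · rwa [List.cons_append, vl_cons, ← mul_assoc]

/-- the part read before the rank becomes zero is a left factor -/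
theorem Mu_dvd {x : PM n} (h1 : 1 ≤ rk x) (h3 : rk x ≤ 3) (t : List (Idem (PM n))) :
    ∃ z, vl t = Mu x t * z := by
  by_cases h : rk (x * vl t) = 0
  · obtain ⟨a, e, b, ht, h4, h5⟩ := split0 t h1 h
    refine ⟨vl b, ?_⟩
    have e1 : Mu x t = vl (a ++ [e]) := by
      have : t = a ++ ([e] ++ b) := by rw [ht]; rfl
      rw [this, Mu_append, Mu_append, Mu_mid a h3 h4]
      have h6 : rk (x * vl a * vl [e]) = 0 := by rwa [mul_assoc, ← vl_append]
      rw [Mu_zero b h6]
      have h7 := rk_mul_le_left x (vl a)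
      rw [Mu, if_pos (by omega), Mu]
      simp
    rw [e1, ← vl_append, ht]
    simp
  · exact ⟨1, by rw [mul_one, Mu_mid t h3 (by omega)]⟩

end Mu

theorem rk_prefix {n : ℕ} {a b : List (Idem (PM n))} (h : a <+: b) : rk (vl b) ≤ rk (vl a) := by
  obtain ⟨t, rfl⟩ := h
  exact rk_vl_append_left _ _

theorem prefix_of_rk {n : ℕ} {a b w : List (Idem (PM n))} (ha : a <+: w) (hb : b <+: w)
    (h : rk (vl a) < rk (vl b)) : b <+: a := by
  rcases List.prefix_or_prefix_of_prefix ha hb with h1 | h1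
  · have := rk_prefix h1; omega
  · exact h1

theorem concat_prefix {E : Type*} {a b w : List E} {e : E} (ha : a ++ [e] <+: w) (hb : b <+: w)
    (h : ¬ b <+: a) : a ++ [e] <+: b := by
  rcases List.prefix_or_prefix_of_prefix ha hb with h1 | h1
  · exact h1
  · rcases List.prefix_concat_iff.1 h1 with h2 | h2
    · rw [h2]
    · exact absurd h2 h

variable {n : ℕ} [hn : Fact (7 ≤ n)]

/-- the base word -/
def bword (k : ℕ) : List (Idem (PM n)) := xw (bas (k + 1))

/-- small words -/
def Sm (k : ℕ) (t : List (Idem (PM n))) : Prop := ∃ t0 : List (Idem (PM n)), mkw t0 = mkw t ∧ t0.length ≤ 2 * k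

theorem vl_congr {u v : List (Idem (PM n))} (h : mkw u = mkw v) : vl u = vl v := by
  rw [vl_eq, vl_eq, h]

/-- a small window cannot cross the whole second block -/
theorem lemP {k : ℕ} {p u q : List (Idem (PM n))} (hw : mkw (p ++ u ++ q) = mkw (bword k))
    (hs : Sm k u) (hp : 2 ≤ rk (vl p)) (h0 : rk (vl (p ++ u)) = 0) : False := by
  obtain ⟨t0, ht0, hlen⟩ := hs
  have hw' : mkw (p ++ t0 ++ q) = mkw (bword k) := by
    rw [← hw]; simp only [mkw_append, ht0]
  have h0' : rk (vl (p ++ t0)) = 0 := by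
    rw [← h0, vl_append, vl_append, vl_congr ht0]
  obtain ⟨P1, P2, P5, P6, P7, P8, P9, α, β, γ, a1, a2, a5, a6, a7, a8, a9, b1, b2, b3,
    r1, r2, r5, r6, r7, r8, rα, rβ, rγ, l1, l2⟩ := fac k hw'
  have p1 : p <+: p ++ t0 ++ q := by rw [List.append_assoc]; exact List.prefix_append _ _
  have p2 : p ++ t0 <+: p ++ t0 ++ q := List.prefix_append _ _
  have h1 : p <+: P6 := prefix_of_rk a6 p1 (by omega)
  have h2 : P7 <+: p ++ t0 := prefix_of_rk p2 a7 (by omega)
  have h3 := h1.length_le
  have h4 := h2.length_le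
  rw [List.length_append] at h4
  omega

/-- The middle part. -/
theorem lemMid {k : ℕ} {p t q : List (Idem (PM n))} (hw : mkw (p ++ t ++ q) = mkw (bword k))
    (hp : rk (vl p) = 1) (h0 : rk (vl (p ++ t)) = 0) :
    rk (Mu 1 p * Mu (vl p) t) = 2 ∧ (Sm k t → rk (Mu 1 p * vl t) = 2) := by
  have hn' := hn.out
  have r1n : 4 ≤ rk (1 : PM n) := by rw [rk_one']; omega
  obtain ⟨a, e, b, hpe, h4, h3⟩ := split1 p (x := 1) r1n (by rw [one_mul]; omega)
  rw [one_mul] at h4 h3
  have hp' : p = a ++ [e] ++ b := by rw [hpe]; simp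
  have eMu : Mu 1 p = vl b := by
    rw [hp', Mu_append, Mu_append, Mu_high a (by rwa [one_mul]), one_mul, one_mul, one_mul]
    have e1 : Mu (vl a) [e] = 1 := by rw [Mu, if_neg (by omega), Mu]
    rw [e1, one_mul]
    apply Mu_mid b h3
    rw [← vl_append, ← hp', hp]
  rw [vl_append] at h0
  obtain ⟨a', e', b', hte, h4', h3'⟩ := split0 t (x := vl p) (by omega) h0
  have ht' : t = a' ++ [e'] ++ b' := by rw [hte]; simp
  have eMt : Mu (vl p) t = vl (a' ++ [e']) := by
    rw [ht', Mu_append, Mu_append, Mu_mid a' (by omega) h4', Mu_zero b' h3', mul_one, vl_append]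
    congr 1
    have := rk_mul_le_left (vl p) (vl a')
    rw [Mu, if_pos (by omega), Mu]; simp
  set Q1 := a ++ [e] with hQ1
  set μ := b ++ (a' ++ [e']) with hμ
  set Q3 := Q1 ++ μ with hQ3
  have hQ3p : Q3 = p ++ (a' ++ [e']) := by rw [hQ3, hμ, hp']; simp
  have eμ : Mu 1 p * Mu (vl p) t = vl μ := by rw [eMu, eMt, hμ, vl_append b]
  have rQ3 : rk (vl Q3) = 0 := by rw [hQ3p, vl_append]; exact h3'
  -- general facts about factorizations
  have gen : ∀ (w P1 : List (Idem (PM n))), P1 <+: w → Q1 <+: w → 4 ≤ rk (vl P1) → P1 <+: Q1 := by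
    intro w P1 c1 c2 c3
    exact prefix_of_rk c2 c1 (by omega)
  have main : rk (vl μ) = 2 := by
    obtain ⟨P1, P2, P5, P6, P7, P8, P9, α, β, γ, a1, a2, a5, a6, a7, a8, a9, b1, b2, b3,
      r1, r2, r5, r6, r7, r8, rα, rβ, rγ, l1, l2⟩ := fac k hw
    have pQ1 : Q1 <+: p ++ t ++ q := by rw [hp']; simp
    have pa : a <+: p ++ t ++ q := (List.prefix_append a [e]).trans pQ1
    have pQ3 : Q3 <+: p ++ t ++ q := by rw [hQ3p, ht']; simp
    have pa' : p ++ a' <+: p ++ t ++ q := by rw [ht']; simp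
    have c1 : P1 <+: Q1 := gen _ _ a1 pQ1 r1
    have c2 : Q1 <+: P2 := concat_prefix pQ1 a2 (fun h => by have := rk_prefix h; omega)
    have c3 : Q3 <+: P8 := by
      have e1 : Q3 = p ++ a' ++ [e'] := by rw [hQ3p]; simp
      rw [e1]
      apply concat_prefix (e1 ▸ pQ3) a8
      intro h
      have := rk_prefix h
      rw [vl_append] at this
      omega
    have c4 : P7 <+: Q3 := prefix_of_rk pQ3 a7 (by omega)
    have c5 : P8 <+: P9 := List.prefix_of_prefix_length_le a8 a9 (by omega)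
    obtain ⟨ε, hε⟩ := c1
    obtain ⟨δ, hδ⟩ := c3.trans c5
    have lower : 2 ≤ rk (vl μ) := by
      have e1 : P1 ++ α = P1 ++ (ε ++ μ ++ δ) := by
        rw [← b1, ← hδ, hQ3, ← hε]; simp
      have e2 := List.append_cancel_left e1
      have e3 : rk (vl α) ≤ rk (vl μ) := by
        rw [e2, vl_append, vl_append]
        exact (rk_mul_le_left _ _).trans (rk_mul_le_right _ _)
      omega
    have upper : rk (vl μ) ≤ 2 := by
      by_contra hcon
      obtain ⟨η, hη⟩ := c2
      obtain ⟨ζ, hζ⟩ := c4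
      set x := η ++ γ with hx
      have e7 : P7 = Q1 ++ x := by rw [b3, ← hη, hx]; simp
      have e8 : μ = x ++ ζ := by
        have : Q1 ++ μ = Q1 ++ (x ++ ζ) := by rw [← hQ3, ← hζ, e7]; simp
        exact List.append_cancel_left this
      have e9 : rk (vl β) ≤ rk (vl x) := by
        have : P1 ++ β = P1 ++ (ε ++ x) := by rw [← b2, e7, ← hε]; simp
        rw [List.append_cancel_left this]
        exact rk_vl_append_right _ _
      have e10 : rk (vl x) ≤ rk (vl γ) := by rw [hx]; exact rk_vl_append_right _ _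
      have e11 : rk (vl μ) ≤ rk (vl x) := by rw [e8]; exact rk_vl_append_left _ _
      have e12 : rk (vl x * vl ζ) = rk (vl x) := by
        rw [← vl_append, ← e8]; omega
      have e13 := rk_mul_left_congr e12 (vl Q1)
      rw [← vl_append, ← e8, ← vl_append, ← vl_append, ← hQ3, ← e7, rQ3] at e13
      omega
    omega
  refine ⟨by rw [eμ, main], ?_⟩
  · rintro ⟨t0, ht0, hlen⟩
    have hw' : mkw (p ++ t0 ++ q) = mkw (bword k) := by
      rw [← hw]; simp only [mkw_append, ht0]
    have evt : vl t0 = vl t := vl_congr ht0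
    have up : rk (Mu 1 p * vl t) ≤ rk (vl μ) := by
      obtain ⟨z, hz⟩ := Mu_dvd (x := vl p) (by omega) (by omega) t
      rw [hz, ← mul_assoc, eμ]
      exact rk_mul_le_left _ _
    obtain ⟨P1, P2, P5, P6, P7, P8, P9, α, β, γ, a1, a2, a5, a6, a7, a8, a9, b1, b2, b3,
      r1, r2, r5, r6, r7, r8, rα, rβ, rγ, l1, l2⟩ := fac k hw'
    have pQ1 : Q1 <+: p ++ t0 ++ q := by rw [hp']; simp
    have pp : p <+: p ++ t0 ++ q := by rw [List.append_assoc]; exact List.prefix_append _ _
    have c1 : P1 <+: Q1 := gen _ _ a1 pQ1 r1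
    have c2 : p <+: P8 := prefix_of_rk a8 pp (by omega)
    have c3 : p ++ t0 <+: P9 := by
      apply List.prefix_of_prefix_length_le (List.prefix_append _ q) a9
      have := c2.length_le
      rw [List.length_append]; omega
    obtain ⟨ε, hε⟩ := c1
    obtain ⟨δ, hδ⟩ := c3
    have e1 : P1 ++ α = P1 ++ (ε ++ (b ++ t0) ++ δ) := by
      rw [← b1, ← hδ, hp', ← hε]; simp
    have e2 := List.append_cancel_left e1
    have e3 : rk (vl α) ≤ rk (vl (b ++ t0)) := by
      rw [e2, vl_append, vl_append]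
      exact (rk_mul_le_left _ _).trans (rk_mul_le_right _ _)
    have e4 : vl (b ++ t0) = Mu 1 p * vl t := by rw [vl_append, eMu, evt]
    rw [e4] at e3
    omega

end Pool.Agent.H359.IGR
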