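import Pool.Agent.H359.IGR.Alg

/-!
# The token swap and its equations
-/

namespace Pool.Agent.H359.IGR

open Pool.Agent.H213 RkMonoid Relation PM Module

variable {n : ℕ} [hn : Fact (7 ≤ n)]

/-- the word swapping two tokens -/
def bw : List (Idem (PM n)) := [bi (c 0) (c 4), bi (c 1) (c 0), bi (c 4) (c 1)]

theorem c04 : (c 0 : Fin n) ≠ c 4 := c_ne (by decide)
theorem c14 : (c 1 : Fin n) ≠ c 4 := c_ne (by decide)

theorem mem_C_bw {f g : Vec n} : (f, g) ∈ (vl (bw : List (Idem (PM n)))).C ↔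
    f (c 0) = f (c 4) ∧ g (c 0) = f (c 1) ∧ g (c 1) = f (c 0) ∧
      ∀ k, k ≠ c 0 → k ≠ c 1 → k ≠ c 4 → g k = f k := by
  classical
  have h01 : (c 0 : Fin n) ≠ c 1 := c01
  have h04 : (c 0 : Fin n) ≠ c 4 := c04
  have h14 : (c 1 : Fin n) ≠ c 4 := c14
  have e : vl (bw : List (Idem (PM n))) = (tt (c 0) (c 4) * ss (c 0)) * ((tt (c 1) (c 0) * ss (c 1)) *
      (tt (c 4) (c 1) * ss (c 4))) := by
    simp [bw, vl]
  rw [e, mem_C_mul]
  constructor
  · rintro ⟨h, h1, h2⟩
    obtain ⟨h', h3, h4⟩ := mem_C_mul.1 h2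
    rw [mem_C_b] at h1 h3 h4
    obtain ⟨a1, a2⟩ := h1
    obtain ⟨b1, b2⟩ := h3
    obtain ⟨d1, d2⟩ := h4
    refine ⟨a2, ?_, ?_, ?_⟩
    · rw [← d1 _ h04, ← b1 _ h01, ← b2, ← a1 _ h01.symm]
    · rw [← d1 _ h14, ← d2, ← b1 _ h14.symm, ← a1 _ h04.symm, a2]
    · intro k hk0 hk1 hk4
      rw [← d1 k hk4, ← b1 k hk1, ← a1 k hk0]
  · rintro ⟨a1, a2, a3, a4⟩
    refine ⟨fun k => if k = c 0 then f (c 1) else f k, ?_, ?_⟩
    · rw [mem_C_b]
      refine ⟨?_, a1⟩
      intro k hk; simp [hk]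
    · rw [mem_C_mul]
      refine ⟨fun k => if k = c 0 then f (c 1) else if k = c 1 then f (c 0) else f k, ?_, ?_⟩
      · rw [mem_C_b]
        constructor
        · intro k hk; simp [hk]
        · simp [h01.symm]
      · rw [mem_C_b]
        constructor
        · intro k hk
          by_cases hk0 : k = c 0
          · subst hk0; simp [a2]
          · by_cases hk1 : k = c 1
            · subst hk1; simp [h01.symm, a3]
            · simp [hk0, hk1, a4 k hk0 hk1 hk]
        · simp [h04.symm, h14.symm, h01.symm, a1]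

/-- the cut free point followed by the swap -/
theorem mem_C_sbw {f g : Vec n} : (f, g) ∈ (ss (c 4) * vl (bw : List (Idem (PM n)))).C ↔
    g (c 0) = f (c 1) ∧ g (c 1) = f (c 0) ∧ ∀ k, k ≠ c 0 → k ≠ c 1 → k ≠ c 4 → g k = f k := by
  classical
  have h04 : (c 0 : Fin n) ≠ c 4 := c04
  have h14 : (c 1 : Fin n) ≠ c 4 := c14
  rw [mem_C_ss_mul]
  constructor
  · rintro ⟨h, h1, h2⟩
    rw [mem_C_bw] at h1
    obtain ⟨_, a2, a3, a4⟩ := h1
    refine ⟨by rw [a2, h2 _ h14], by rw [a3, h2 _ h04], ?_⟩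
    intro k hk0 hk1 hk4
    rw [a4 k hk0 hk1 hk4, h2 k hk4]
  · rintro ⟨a2, a3, a4⟩
    refine ⟨fun k => if k = c 4 then f (c 0) else f k, ?_, ?_⟩
    · rw [mem_C_bw]
      refine ⟨by simp [h04], by simp [h14, a2], by simp [h04, a3], ?_⟩
      intro k hk0 hk1 hk4
      simp [hk4, a4 k hk0 hk1 hk4]
    · intro k hk; simp [hk]

/-- letters absorbing the swap -/
theorem vl_mul_bw {A : Finset (Fin 7)} (h0 : 0 ∉ A) (h1 : 1 ∉ A) (h4 : 4 ∉ A) :
    mkw ([xl A] ++ bw : List (Idem (PM n))) = mkw [xl A] := by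
  have key : ∀ i j : Fin 7, i ≠ j → i ∉ A → j ∉ A →
      io (xl A : Idem (PM n)) * io (bi (c i) (c j)) = io (xl A) := by
    intro i j hij hi hj
    apply io_mul_left
    show Es (cs A) * (tt (c i) (c j) * ss (c i)) = Es (cs A)
    classical
    apply ext_C
    intro f g
    rw [mem_C_mul, mem_C_Es]
    constructor
    · rintro ⟨h, h1, h2⟩ k hk
      rw [mem_C_b] at h2
      rw [mem_C_Es] at h1
      rw [h1 k hk, h2.1 k (fun hk' => hi (mem_cs.1 (hk' ▸ hk)))]
    · intro h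
      refine ⟨fun k => if k = c i then g (c j) else g k, ?_, ?_⟩
      · rw [mem_C_Es]
        intro k hk
        have : k ≠ c i := fun hk' => hi (mem_cs.1 (hk' ▸ hk))
        simp [this, h k hk]
      · rw [mem_C_b]
        constructor
        · intro k hk; simp [hk]
        · have : (c j : Fin n) ≠ c i := c_ne hij.symm
          simp [this]
  rw [mkw_append]
  unfold bw
  rw [mkw_cons, mkw_cons, mkw_cons, mkw_cons, mkw_nil, mul_one, mul_one]
  rw [← mul_assoc, ← mul_assoc, key 0 4 (by decide) h0 h4, key 1 0 (by decide) h1 h0,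
    key 4 1 (by decide) h4 h1]

theorem tw_bi (a : PM n) {i j : Fin n} (hij : i ≠ j) : tw a (tt i j * ss i) = 0 := by
  apply tw_eq_zero
  intro f _ h2
  have h3 := mem_C_b.1 (mem_ker.1 h2)
  obtain ⟨h4, h5⟩ := h3
  ext k
  by_cases hk : k = i
  · rw [hk, h5, h4 j hij.symm]; rfl
  · exact h4 k hk

theorem W_bi (x : IG (PM n)) {i j : Fin n} (hij : i ≠ j) : W (x * io (bi i j)) = W x := by
  rw [W_mul_io]
  have h1 : cst (val x) (bi i j : PM n) = 1 := by
    unfold cst; rw [coe_bi, tw_bi _ hij]; norm_num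
  have h2 : cst (bi i j : PM n) (bi i j : PM n) = 1 := by
    unfold cst; rw [coe_bi, tw_bi _ hij]; norm_num
  rw [h1, h2]; ring

theorem W_mul_bw (x : IG (PM n)) : W (x * mkw bw) = W x := by
  unfold bw
  rw [mkw_cons, mkw_cons, mkw_cons, mkw_nil, mul_one, ← mul_assoc, ← mul_assoc,
    W_bi _ c14.symm, W_bi _ c01.symm, W_bi _ c04]

theorem W_sbw_mul {A : Finset (Fin 7)} (h4 : 4 ∉ A) :
    W (io (si (c 4)) * mkw bw * io (xl A) : IG (PM n)) = W (io (xl A) : IG (PM n)) := by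
  classical
  rw [W_mul, W_mul_bw, W_io]
  have h1 : cst ((si (c 4) : Idem (PM n)) : PM n) ((si (c 4) : Idem (PM n)) : PM n) = 2 := by
    rw [coe_si, cst_ss_ss]
  have h2 : cst (val (io (si (c 4)) * mkw bw : IG (PM n))) (val (io (xl A) : IG (PM n))) = 2 := by
    rw [map_mul, val_io, val_io, ← vl_eq, coe_si, coe_xl]
    unfold cst tw
    have h3 : ((ss (c 4) * vl (bw : List (Idem (PM n)))).cok ⊓ (Es (cs A)).ker :
        Submodule (ZMod 2) (Vec n)) = Submodule.span (ZMod 2) {(Pi.single (c 4) 1 : Vec n)} := by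
      ext f
      rw [Submodule.mem_inf, mem_ker_Es, mem_cok, mem_C_sbw, Submodule.mem_span_singleton]
      constructor
      · rintro ⟨⟨e1, e2, e3⟩, -⟩
        refine ⟨f (c 4), ?_⟩
        ext k
        by_cases hk4 : k = c 4
        · rw [hk4]; simp
        · by_cases hk0 : k = c 0
          · rw [hk0, e1]; simp [c04]
          · by_cases hk1 : k = c 1
            · rw [hk1, e2]; simp [c14]
            · rw [e3 k hk0 hk1 hk4]; simp [hk4]
      · rintro ⟨d, rfl⟩
        refine ⟨⟨by simp [c04], by simp [c14], fun k _ _ hk4 => by simp [hk4]⟩, ?_⟩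
        intro k hk
        have : k ≠ c 4 := fun hk' => h4 (mem_cs.1 (hk' ▸ hk))
        simp [this]
    rw [h3, finrank_span_singleton]
    · norm_num
    · intro h
      have := congrFun h (c 4)
      simp at this
  rw [h1, h2]; ring

/-- (a) -/
theorem sbw_comm {A : Finset (Fin 7)} (h0 : 0 ∈ A) (h1 : 1 ∈ A) (h4 : 4 ∉ A) (hA : A.card + 2 ≤ 7) :
    (io (si (c 4)) * mkw bw * io (xl A) : IG (PM n)) = io (xl A) * mkw bw := by
  classical
  have hv : val (io (si (c 4)) * mkw bw * io (xl A) : IG (PM n)) = val (io (xl A) * mkw bw) := by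
    simp only [map_mul, val_io, ← vl_eq, coe_si, coe_xl]
    apply ext_C
    intro f g
    rw [mem_C_mul, mem_C_mul]
    simp only [mem_C_sbw, mem_C_Es, mem_C_bw]
    have m0 := mem_cs (n := n).2 h0
    have m1 := mem_cs (n := n).2 h1
    constructor
    · rintro ⟨h, ⟨a1, a2, a3⟩, a4⟩
      refine ⟨fun k => if k = c 0 then f (c 0) else if k = c 1 then f (c 1) else
        if k = c 4 then f (c 0) else g k, ?_, ?_⟩
      · intro k hk
        have hk4 : k ≠ c 4 := fun hk' => h4 (mem_cs.1 (hk' ▸ hk))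
        by_cases hk0 : k = c 0
        · simp [hk0]
        · by_cases hk1 : k = c 1
          · simp [hk1, c01.symm]
          · simp [hk0, hk1, hk4, ← a3 k hk0 hk1 hk4, a4 k hk]
      · refine ⟨by simp [c04.symm, c14.symm], ?_, ?_, ?_⟩
        · simp [c01.symm, ← a4 _ m0, a1]
        · simp [← a4 _ m1, a2]
        · intro k hk0 hk1 hk4; simp [hk0, hk1, hk4]
    · rintro ⟨h, a0, a1, a2, a3, a4⟩
      refine ⟨fun k => if k = c 0 then f (c 1) else if k = c 1 then f (c 0) else f k, ?_, ?_⟩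
      · refine ⟨by simp, by simp [c01.symm], fun k hk0 hk1 hk4 => by simp [hk0, hk1]⟩
      · intro k hk
        have hk4 : k ≠ c 4 := fun hk' => h4 (mem_cs.1 (hk' ▸ hk))
        by_cases hk0 : k = c 0
        · simp [hk0, a2, a0 _ m1]
        · by_cases hk1 : k = c 1
          · simp [hk1, c01.symm, a3, a0 _ m0]
          · simp [hk0, hk1, a4 k hk0 hk1 hk4, a0 k hk]
  have hrk : rk (val (io (xl A) * mkw bw : IG (PM n))) = rk (Es (cs A) : PM n) := by
    -- the swap is invertible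
    have hinv : Es (cs A) * vl (bw : List (Idem (PM n))) * (ss (c 4) * vl bw) * Es (cs A) = Es (cs A) := by
      apply ext_C
      intro f g
      have m0 := mem_cs (n := n).2 h0
      have m1 := mem_cs (n := n).2 h1
      rw [mem_C_mul, mem_C_Es]
      constructor
      · rintro ⟨a, b1, b2⟩ k hk
        obtain ⟨b, b3, b4⟩ := mem_C_mul.1 b1
        obtain ⟨d, b5, b6⟩ := mem_C_mul.1 b3
        rw [mem_C_Es] at b2 b5
        rw [mem_C_sbw] at b4
        rw [mem_C_bw] at b6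
        have hk4 : k ≠ c 4 := fun hk' => h4 (mem_cs.1 (hk' ▸ hk))
        by_cases hk0 : k = c 0
        · subst hk0
          rw [← b2 _ m0, b4.1, b6.2.2.1, b5 _ m0]
        · by_cases hk1 : k = c 1
          · subst hk1
            rw [← b2 _ m1, b4.2.1, b6.2.1, b5 _ m1]
          · rw [← b2 k hk, b4.2.2 k hk0 hk1 hk4, b6.2.2.2 k hk0 hk1 hk4, b5 k hk]
      · intro h
        let s : Vec n → Vec n := fun f k => if k = c 0 then f (c 1) else if k = c 1 then f (c 0) else f k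
        let f' : Vec n := fun k => if k = c 4 then f (c 0) else f k
        refine ⟨f', mem_C_mul.2 ⟨s f', mem_C_mul.2 ⟨f', ?_, ?_⟩, ?_⟩, ?_⟩
        · rw [mem_C_Es]
          intro k hk
          have hk4 : k ≠ c 4 := fun hk' => h4 (mem_cs.1 (hk' ▸ hk))
          simp [f', hk4]
        · rw [mem_C_bw]
          refine ⟨by simp [f', c04], by simp [s], by simp [s, c01.symm], ?_⟩
          intro k hk0 hk1 hk4; simp [s, hk0, hk1]
        · rw [mem_C_sbw]
          refine ⟨by simp [s, c01.symm], by simp [s], ?_⟩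
          intro k hk0 hk1 hk4; simp [s, hk0, hk1]
        · rw [mem_C_Es]
          intro k hk
          have hk4 : k ≠ c 4 := fun hk' => h4 (mem_cs.1 (hk' ▸ hk))
          simp [f', hk4, h k hk]
    rw [map_mul, val_io, ← vl_eq, coe_xl]
    apply le_antisymm (rk_mul_le_left _ _)
    calc rk (Es (cs A) : PM n) = rk (Es (cs A) * vl (bw : List (Idem (PM n))) * (ss (c 4) * vl bw) * Es (cs A)) := by
          rw [hinv]
      _ ≤ _ := by
          rw [mul_assoc, mul_assoc]
          rw [← mul_assoc (Es (cs A))]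
          exact rk_mul_le_left _ _
  have hreg : Reg (io (xl A) * mkw bw : IG (PM n)) := by
    apply (reg_io _).mul_right
    rw [map_mul] at hrk
    rw [hrk, val_io, coe_xl]
  have hreg' : Reg (io (si (c 4)) * mkw bw * io (xl A) : IG (PM n)) := by
    apply reg_mul_left (reg_io _)
    rw [← map_mul, hv, hrk, val_io, coe_xl]
  apply F3 hreg' hreg
  · rw [hv, hrk, rk_cs]
    have := hn.out
    omega
  · exact hv
  · rw [W_sbw_mul h4, W_mul_bw]

/-- absorption at the right end -/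
theorem sbw_absorb {A : Finset (Fin 7)} (h0 : 0 ∉ A) (h1 : 1 ∉ A) (h4 : 4 ∉ A) (hA : A.card + 2 ≤ 7) :
    (io (si (c 4)) * mkw bw * io (xl A) : IG (PM n)) = io (xl A) := by
  classical
  have hv : val (io (si (c 4)) * mkw bw * io (xl A) : IG (PM n)) = val (io (xl A)) := by
    simp only [map_mul, val_io, ← vl_eq, coe_si, coe_xl]
    apply ext_C
    intro f g
    rw [mem_C_mul]
    simp only [mem_C_sbw, mem_C_Es]
    have key : ∀ k, k ∈ (cs A : Set (Fin n)) → k ≠ c 0 ∧ k ≠ c 1 ∧ k ≠ c 4 := by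
      intro k hk
      exact ⟨fun h => h0 (mem_cs.1 (h ▸ hk)), fun h => h1 (mem_cs.1 (h ▸ hk)),
        fun h => h4 (mem_cs.1 (h ▸ hk))⟩
    constructor
    · rintro ⟨h, ⟨a1, a2, a3⟩, a4⟩ k hk
      obtain ⟨k0, k1, k4⟩ := key k hk
      rw [← a3 k k0 k1 k4, a4 k hk]
    · intro h
      refine ⟨fun k => if k = c 0 then f (c 1) else if k = c 1 then f (c 0) else f k, ?_, ?_⟩
      · refine ⟨by simp, by simp [c01.symm], fun k hk0 hk1 hk4 => by simp [hk0, hk1]⟩
      · intro k hk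
        obtain ⟨k0, k1, k4⟩ := key k hk
        simp [k0, k1, h k hk]
  have hreg' : Reg (io (si (c 4)) * mkw bw * io (xl A) : IG (PM n)) := by
    apply reg_mul_left (reg_io _)
    rw [← map_mul, hv]
  apply F3 hreg' (reg_io _)
  · rw [hv, val_io, coe_xl, rk_cs]
    have := hn.out
    omega
  · exact hv
  · rw [W_sbw_mul h4]

theorem mul_si {A : Finset (Fin 7)} (h4 : 4 ∉ A) : io (xl A : Idem (PM n)) * io (si (c 4)) = io (xl A) := by
  apply io_mul_left
  show Es (cs A) * ss (c 4) = Es (cs A)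
  exact Es_mul_ss (fun h => h4 (mem_cs.1 h))

/-- (E2) -/
theorem pass {A B : Finset (Fin 7)} (hA : 4 ∉ A) (h0 : 0 ∈ B) (h1 : 1 ∈ B) (h4 : 4 ∉ B)
    (hB : B.card + 2 ≤ 7) :
    mkw ([xl A] ++ bw ++ [xl B] : List (Idem (PM n))) = mkw ([xl A, xl B] ++ bw) := by
  rw [mkw_append, mkw_append, mkw_append]
  show io (xl A) * mkw bw * io (xl B) = mkw [xl A, xl B] * mkw bw
  have e : mkw [xl A, xl B] = (io (xl A) * io (xl B) : IG (PM n)) := rfl
  rw [e, mul_assoc (io (xl A)) (io (xl B)), ← sbw_comm h0 h1 h4 hB]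
  conv_lhs => rw [← mul_si hA]
  simp only [mul_assoc]

/-- (E3) -/
theorem passR {A B : Finset (Fin 7)} (hA : 4 ∉ A) (h0 : 0 ∉ B) (h1 : 1 ∉ B) (h4 : 4 ∉ B)
    (hB : B.card + 2 ≤ 7) :
    mkw ([xl A] ++ bw ++ [xl B] : List (Idem (PM n))) = mkw [xl A, xl B] := by
  rw [mkw_append, mkw_append]
  show io (xl A) * mkw bw * io (xl B) = mkw [xl A, xl B]
  have e : mkw [xl A, xl B] = (io (xl A) * io (xl B) : IG (PM n)) := rfl
  rw [e]
  conv_rhs => rw [← sbw_absorb h0 h1 h4 hB]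
  conv_lhs => rw [← mul_si hA]
  simp only [mul_assoc]

end Pool.Agent.H359.IGR
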