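import Pool.Agent.H359.IGR.DFun

/-!
# The functional satisfies the hypotheses of the integration theorem
-/

namespace Pool.Agent.H359.IGR

open Pool.Agent.H213 RkMonoid Relation PM

variable {n : ℕ} [hn : Fact (7 ≤ n)]

/-- the position of the two long components at the end of the middle part -/
noncomputable def Th (p t : List (Idem (PM n))) : PM n := tr h0 (Mu 1 p * Mu (vl p) t)

/-- the window contains the end of the middle part -/
def Act (k : ℕ) (p t q : List (Idem (PM n))) : Prop :=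
  mkw (p ++ t ++ q) = mkw (bword k) ∧ rk (vl p) = 1 ∧ rk (vl (p ++ t)) = 0

open Classical in
/-- the functional -/
noncomputable def Df (k : ℕ) (p t t' q : List (Idem (PM n))) : ZMod 2 :=
  if Act k p t q ∧ Th p t ≠ Th p t' then 1 else 0

theorem Act.congr {k : ℕ} {p t q p' t' q' : List (Idem (PM n))} (hp : mkw p = mkw p') (ht : mkw t = mkw t')
    (hq : mkw q = mkw q') : Act k p t q ↔ Act k p' t' q' := by
  unfold Act
  simp only [mkw_append, vl_append, hp, ht, hq, vl_congr hp, vl_congr ht]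

/-- the three data of the window: all values are R-related and of rank two -/
theorem Act.key {k : ℕ} {p t t' q : List (Idem (PM n))} (h : Act k p t q) (hs : Sm k t)
    (ht : mkw t = mkw t') :
    rk (Mu 1 p * Mu (vl p) t) = 2 ∧ rk (Mu 1 p * Mu (vl p) t') = 2 ∧
      ∃ s, Mu 1 p * Mu (vl p) t' = Mu 1 p * Mu (vl p) t * s := by
  have h' : Act k p t' q := (Act.congr rfl ht rfl).1 h
  have m1 := lemMid h.1 h.2.1 h.2.2
  have m2 := lemMid h'.1 h'.2.1 h'.2.2
  refine ⟨m1.1, m2.1, ?_⟩
  have r1 : 1 ≤ rk (vl p) := by rw [h.2.1]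
  have r3 : rk (vl p) ≤ 3 := by rw [h.2.1]; omega
  obtain ⟨z, hz⟩ := Mu_dvd r1 r3 t
  obtain ⟨z', hz'⟩ := Mu_dvd r1 r3 t'
  have e1 : Mu 1 p * Mu (vl p) t' * z' = Mu 1 p * Mu (vl p) t * z := by
    rw [mul_assoc, mul_assoc, ← hz, ← hz', vl_congr ht]
  have e2 : rk (Mu 1 p * Mu (vl p) t' * z') = rk (Mu 1 p * Mu (vl p) t') := by
    rw [e1, mul_assoc, ← hz, m2.1, m1.2 hs]
  obtain ⟨w, hw⟩ := ex_right _ _ e2
  exact ⟨z * w, by rw [← mul_assoc, ← e1, hw]⟩

theorem Df_add {k : ℕ} {p t t' t'' q : List (Idem (PM n))} (hs : Sm k t) (h1 : mkw t = mkw t')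
    (h2 : mkw t' = mkw t'') : Df k p t t' q + Df k p t' t'' q = Df k p t t'' q := by
  classical
  by_cases hA : Act k p t q
  · have hA' : Act k p t' q := (Act.congr rfl h1 rfl).1 hA
    obtain ⟨ra, rb, s, hs1⟩ := hA.key hs h1
    obtain ⟨-, rc, s', hs2⟩ := hA.key hs (h1.trans h2)
    have hp := triv_h0.pigeon (by rw [ra, rk_h0]) (by rw [rb, rk_h0]) (by rw [rc, rk_h0]) hs1 hs2
    unfold Df
    simp only [hA, hA', true_and]
    by_cases a1 : Th p t = Th p t'
    · simp only [a1, ne_eq, not_true_eq_false, if_false, zero_add]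
    · by_cases a2 : Th p t' = Th p t''
      · rw [← a2]; simp
      · have a3 : Th p t = Th p t'' := by
          rcases hp with h | h | h
          · exact absurd h a1
          · exact absurd h a2
          · exact h
        rw [if_pos a1, if_pos a2, if_neg (by rw [a3]; simp)]
        decide
  · have hA' : ¬ Act k p t' q := fun h => hA ((Act.congr rfl h1 rfl).2 h)
    unfold Df
    simp [hA, hA']

theorem Th_append {p a t : List (Idem (PM n))} : Th p (a ++ t) = Th (p ++ a) t := by
  unfold Th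
  rw [Mu_append, Mu_append, vl_append, one_mul, mul_assoc]

theorem Th_right {p t b : List (Idem (PM n))} (h : rk (vl (p ++ t)) = 0) : Th p (t ++ b) = Th p t := by
  unfold Th
  rw [Mu_append]
  rw [vl_append] at h
  rw [Mu_zero b h, mul_one]

theorem Df_ctx {k : ℕ} {P Q a b t t' : List (Idem (PM n))} (hs : Sm k (a ++ t ++ b))
    (h : mkw t = mkw t') : Df k P (a ++ t ++ b) (a ++ t' ++ b) Q = Df k (P ++ a) t t' (b ++ Q) := by
  classical
  have ev : vl t = vl t' := vl_congr h
  have rle : rk (vl (P ++ (a ++ t ++ b))) ≤ rk (vl (P ++ a ++ t)) := by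
    rw [show P ++ (a ++ t ++ b) = (P ++ a ++ t) ++ b by simp]
    exact rk_vl_append_left _ _
  have rle2 : rk (vl (P ++ a ++ t)) ≤ rk (vl (P ++ a)) := rk_vl_append_left _ _
  have rle3 : rk (vl (P ++ a)) ≤ rk (vl P) := rk_vl_append_left _ _
  by_cases hA : Act k P (a ++ t ++ b) Q
  · obtain ⟨c1, c2, c3⟩ := hA
    by_cases hz : rk (vl (P ++ a)) = 0
    · -- the middle part ends in a
      have e1 : Th P (a ++ t ++ b) = Th P (a ++ t' ++ b) := by
        rw [List.append_assoc, List.append_assoc, Th_right hz, Th_right hz]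
      have hB : ¬ Act k (P ++ a) t (b ++ Q) := fun hB => by have := hB.2.1; omega
      unfold Df
      rw [if_neg (fun h => h.2 e1), if_neg (fun h => hB h.1)]
    · by_cases hz2 : rk (vl (P ++ a ++ t)) = 0
      · have hB : Act k (P ++ a) t (b ++ Q) := by
          refine ⟨?_, by omega, hz2⟩
          rw [← c1]; congr 1; simp
        have hA : Act k P (a ++ t ++ b) Q := ⟨c1, c2, c3⟩
        have hz2' : rk (vl (P ++ (a ++ t))) = 0 := by rwa [List.append_assoc] at hz2
        have hz3' : rk (vl (P ++ (a ++ t'))) = 0 := by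
          rw [← hz2']; simp only [vl_append, ev]
        have e1 : Th P (a ++ t ++ b) = Th (P ++ a) t := by rw [Th_right hz2', Th_append]
        have e2 : Th P (a ++ t' ++ b) = Th (P ++ a) t' := by rw [Th_right hz3', Th_append]
        unfold Df
        simp only [hA, hB, true_and, e1, e2]
      · have hB : ¬ Act k (P ++ a) t (b ++ Q) := fun hB => hz2 hB.2.2
        have e0 : ∀ u : List (Idem (PM n)), vl u = vl t → Mu (vl (P ++ a)) u = vl u := by
          intro u hu
          apply Mu_mid u (by omega)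
          rw [hu, ← vl_append]; omega
        have e1 : Th P (a ++ t ++ b) = Th P (a ++ t' ++ b) := by
          rw [List.append_assoc, List.append_assoc, Th_append (p := P) (a := a) (t := t ++ b),
            Th_append (p := P) (a := a) (t := t' ++ b)]
          unfold Th
          rw [Mu_append t, Mu_append t', e0 t rfl, e0 t' ev.symm, ev]
        unfold Df
        rw [if_neg (fun h => h.2 e1), if_neg (fun h => hB h.1)]
  · by_cases hB : Act k (P ++ a) t (b ++ Q)
    · exfalso
      obtain ⟨c1, c2, c3⟩ := hB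
      have c1' : mkw (P ++ (a ++ t ++ b) ++ Q) = mkw (bword k : List (Idem (PM n))) := by
        rw [← c1]; congr 1; simp
      apply hA
      refine ⟨c1', ?_, by omega⟩
      by_contra hne
      exact lemP c1' hs (by omega) (by omega)
    · unfold Df
      rw [if_neg (fun h => hA h.1), if_neg (fun h => hB h.1)]

theorem Mu_step {a b : List (Idem (PM n))} {e f g : Idem (PM n)} (hg : (e : PM n) * (f : PM n) = g)
    (h : rk (vl (a ++ [e, f] ++ b)) = 1) :
    Mu 1 (a ++ [e, f] ++ b) = Mu 1 (a ++ [g] ++ b) ∨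
      Mu 1 (a ++ [e, f] ++ b) = (f : PM n) * Mu 1 (a ++ [g] ++ b) := by
  have h1 : rk (vl (a ++ [e, f] ++ b)) ≤ rk (vl a * (e : PM n)) := by
    rw [show a ++ [e, f] ++ b = (a ++ [e]) ++ ([f] ++ b) by simp, vl_append _ ([f] ++ b), vl_append,
      vl_singleton]
    exact rk_mul_le_left _ _
  have h2 : rk (vl a * (e : PM n)) ≤ rk (vl a) := rk_mul_le_left _ _
  have ev : vl [e, f] = vl [g] := by simp [← hg]
  rw [Mu_append, Mu_append, Mu_append, Mu_append, one_mul, one_mul, one_mul, vl_append, vl_append, ev]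
  by_cases h3 : rk (vl a) ≤ 3
  · left
    have e1 : Mu (vl a) [e, f] = Mu (vl a) [g] := by
      rw [Mu, if_pos (by omega), Mu, if_pos (by omega), Mu, Mu, if_pos (by omega), Mu, mul_one, mul_one, hg]
    rw [e1]
  · have e0 : Mu 1 a = 1 := Mu_high a (by rw [one_mul]; omega)
    have e1 : Mu (vl a) [g] = 1 := by rw [Mu, if_neg (by omega), Mu]
    rw [e0, e1, one_mul, one_mul]
    by_cases h4 : rk (vl a * (e : PM n)) ≤ 3
    · right
      have e2 : Mu (vl a) [e, f] = f := by
        rw [Mu, if_neg (by omega), Mu, if_pos (by omega), Mu, mul_one]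
      rw [e2, one_mul]
    · left
      have e2 : Mu (vl a) [e, f] = 1 := by
        rw [Mu, if_neg (by omega), Mu, if_neg (by omega), Mu]
      rw [e2, one_mul]

theorem Th_step {k : ℕ} {P P' t t' Q : List (Idem (PM n))} (hs : Sm k t) (h : mkw t = mkw t')
    (hst : StepW P P') (hA : Act k P t Q) : Th P t = Th P t' ↔ Th P' t = Th P' t' := by
  have hPP : mkw P = mkw P' := mkw_eq_of_step hst
  have hA' : Act k P' t Q := (Act.congr hPP rfl rfl).1 hA
  have evP : vl P = vl P' := vl_congr hPP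
  obtain ⟨a, b, e, f, g, -, hg, rfl, rfl⟩ := hst
  obtain ⟨ra, rb, s, hs1⟩ := hA.key hs h
  obtain ⟨ra', rb', s', hs1'⟩ := hA'.key hs h
  rcases Mu_step hg hA.2.1 with h1 | h1
  · unfold Th
    rw [h1, evP]
  · have m1 : rk ((f : PM n) * (Mu 1 (a ++ [g] ++ b) * Mu (vl (a ++ [g] ++ b)) t)) = rk (h0 : PM n) := by
      rw [h1, evP, mul_assoc] at ra
      rw [ra, rk_h0]
    have m2 : rk ((f : PM n) * (Mu 1 (a ++ [g] ++ b) * Mu (vl (a ++ [g] ++ b)) t')) = rk (h0 : PM n) := by
      rw [h1, evP, mul_assoc] at rb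
      rw [rb, rk_h0]
    have e1 : Th (a ++ [e, f] ++ b) t = (f : PM n) * Th (a ++ [g] ++ b) t := by
      unfold Th
      rw [h1, evP, mul_assoc, triv_h0.tr_mul (by rw [ra', rk_h0]) m1]
    have e2 : Th (a ++ [e, f] ++ b) t' = (f : PM n) * Th (a ++ [g] ++ b) t' := by
      unfold Th
      rw [h1, evP, mul_assoc, triv_h0.tr_mul (by rw [rb', rk_h0]) m2]
    constructor
    · intro h2
      rw [e1, e2] at h2
      exact triv_h0.cancel (by rw [ra', rk_h0]) hs1' m1 h2
    · intro h2
      rw [e1, e2, h2]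

theorem Th_inv {k : ℕ} {P P' t t' Q : List (Idem (PM n))} (hs : Sm k t) (h : mkw t = mkw t')
    (hst : EqvGen StepW P P') : Act k P t Q → (Th P t = Th P t' ↔ Th P' t = Th P' t') := by
  induction hst with
  | rel x y hxy => exact fun hA => Th_step hs h hxy hA
  | refl x => exact fun _ => Iff.rfl
  | symm x y hxy ih =>
    intro hA
    exact (ih ((Act.congr (mkw_eq_iff.2 hxy) rfl rfl).2 hA)).symm
  | trans x y z h1 h2 ih1 ih2 =>
    intro hA
    exact (ih1 hA).trans (ih2 ((Act.congr (mkw_eq_iff.2 h1) rfl rfl).1 hA))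

theorem Df_inv {k : ℕ} {P P' Q Q' t t' : List (Idem (PM n))} (hs : Sm k t) (h : mkw t = mkw t')
    (hP : mkw P = mkw P') (hQ : mkw Q = mkw Q') : Df k P t t' Q = Df k P' t t' Q' := by
  classical
  have hc : Act k P t Q ↔ Act k P' t Q' := Act.congr hP rfl hQ
  by_cases hA : Act k P t Q
  · have h1 := Th_inv hs h (mkw_eq_iff.1 hP) hA
    unfold Df
    simp only [hA, hc.1 hA, true_and, ne_eq, h1]
  · unfold Df
    rw [if_neg (fun h => hA h.1), if_neg (fun h => hA (hc.2 h.1))]

theorem funE (k : ℕ) : FunE (mkw : List (Idem (PM n)) → IG (PM n)) (Df k) (Sm k) where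
  sm := fun _ _ ⟨t0, h1, h2⟩ h => ⟨t0, h1.trans h, h2⟩
  add := fun _ _ _ _ _ hs h1 h2 => Df_add hs h1 h2
  ctx := fun _ _ _ _ _ _ hs h => Df_ctx hs h
  inv := fun _ _ _ _ _ _ hs h hP hQ => Df_inv hs h hP hQ

end Pool.Agent.H359.IGR
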