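import Pool.Agent.H359.IGR.FunE

/-!
# The loop
-/

namespace Pool.Agent.H359.IGR

open Pool.Agent.H213 RkMonoid Relation PM

variable {n : ℕ} [hn : Fact (7 ≤ n)]

theorem mkw_congr {a t t' b : List (Idem (PM n))} (h : mkw t = mkw t') :
    mkw (a ++ t ++ b) = mkw (a ++ t' ++ b) := by
  simp only [mkw_append, h]

/-- the swap does not kill the sixth point -/
theorem rk_mul_bw {I : Finset (Fin 7)} (h5 : 5 ∈ I) (h4 : 4 ∉ I) :
    1 ≤ rk (Es (cs I) * vl (bw : List (Idem (PM n)))) := by
  classical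
  have m5 : ∀ k, k ∈ (cs {5} : Set (Fin n)) ↔ k = c 5 := by
    intro k
    constructor
    · rintro ⟨i, hi, rfl⟩
      simp at hi
      rw [hi]
    · rintro rfl; exact mem_cs.2 (by simp)
  have n0 : (c 5 : Fin n) ≠ c 0 := c_ne (by decide)
  have n1 : (c 5 : Fin n) ≠ c 1 := c_ne (by decide)
  have n4 : (c 5 : Fin n) ≠ c 4 := c_ne (by decide)
  have e5 : (Es (cs I) * vl (bw : List (Idem (PM n))) * Es (cs {5}) : PM n) = Es (cs {5}) := by
    apply ext_C
    intro f g
    rw [mem_C_mul, mem_C_Es]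
    constructor
    · rintro ⟨a, h1, h2⟩ k hk
      obtain ⟨b, h3, h6⟩ := mem_C_mul.1 h1
      rw [mem_C_Es] at h2 h3
      rw [mem_C_bw] at h6
      have hk' := (m5 k).1 hk
      rw [← h2 k hk, hk', h6.2.2.2 _ n0 n1 n4, h3 _ (mem_cs.2 h5)]
    · intro h
      have h6 := h (c 5) ((m5 _).2 rfl)
      refine ⟨fun k => if k = c 0 then f (c 1) else if k = c 1 then f (c 0) else f k, mem_C_mul.2
        ⟨fun k => if k = c 4 then f (c 0) else f k, ?_, ?_⟩, ?_⟩
      · rw [mem_C_Es]
        intro k hk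
        have hk4 : k ≠ c 4 := fun hk' => h4 (mem_cs.1 (hk' ▸ hk))
        simp [hk4]
      · rw [mem_C_bw]
        refine ⟨by simp [c04], by simp [c14], by simp [c01.symm, c04], ?_⟩
        intro k hk0 hk1 hk4
        simp [hk0, hk1, hk4]
      · rw [mem_C_Es]
        intro k hk
        rw [(m5 k).1 hk]
        simp [n0, n1, h6]
  have h7 := rk_mul_le_left (Es (cs I) * vl (bw : List (Idem (PM n)))) (Es (cs {5}))
  rw [e5, rk_cs] at h7
  simpa using h7

/-- A potential of the functional. -/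
def Pot (k : ℕ) (Ψ : List (Idem (PM n)) → ZMod 2) : Prop :=
  ∀ p q t t', Sm k t → t ≠ [] → t' ≠ [] → mkw t = mkw t' → Ψ (p ++ t ++ q) = Df k p t t' q + Ψ (p ++ t' ++ q)

/-- admissible letters -/
def Adm (B : Finset (Fin 7)) : Prop := 0 ∈ B ∧ 1 ∈ B ∧ 4 ∉ B ∧ B.card + 2 ≤ 7

theorem Df_eq_zero_of_not_act {k : ℕ} {p t t' q : List (Idem (PM n))} (h : ¬ Act k p t q) :
    Df k p t t' q = 0 := by
  classical
  unfold Df
  rw [if_neg (fun h' => h h'.1)]

theorem Df_eq_zero_of_th {k : ℕ} {p t t' q : List (Idem (PM n))} (h : Th p t = Th p t') :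
    Df k p t t' q = 0 := by
  classical
  unfold Df
  rw [if_neg (fun h' => h'.2 h)]

/-- the words of the loop -/
def UU (l m : List (Finset (Fin 7))) : List (Idem (PM n)) := xw l ++ bw ++ xw m

theorem pass_word {u v : List (Finset (Fin 7))} {A B : Finset (Fin 7)} (hA : 4 ∉ A) (hB : Adm B) :
    (mkw (UU (u ++ [A]) (B :: v)) : IG (PM n)) = mkw (UU (u ++ [A] ++ [B]) v) := by
  have e1 : (UU (u ++ [A]) (B :: v) : List (Idem (PM n))) =
      xw u ++ ([xl A] ++ bw ++ [xl B]) ++ xw v := by simp [UU, xw]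
  have e2 : (UU (u ++ [A] ++ [B]) v : List (Idem (PM n))) =
      xw u ++ ([xl A, xl B] ++ bw) ++ xw v := by simp [UU, xw]
  rw [e1, e2]
  exact mkw_congr (pass hA hB.1 hB.2.1 hB.2.2.1 hB.2.2.2)

theorem pass_pot {k : ℕ} (hk : 3 ≤ k) {Ψ : List (Idem (PM n)) → ZMod 2} (hΨ : Pot k Ψ)
    {u v : List (Finset (Fin 7))} {A B : Finset (Fin 7)} (hA : 4 ∉ A) (hB : Adm B) :
    Ψ (UU (u ++ [A]) (B :: v)) =
      Df k (xw u : List (Idem (PM n))) ([xl A] ++ bw ++ [xl B]) ([xl A, xl B] ++ bw) (xw v) +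
      Ψ (UU (u ++ [A] ++ [B]) v) := by
  have e1 : (UU (u ++ [A]) (B :: v) : List (Idem (PM n))) =
      xw u ++ ([xl A] ++ bw ++ [xl B]) ++ xw v := by simp [UU, xw]
  have e2 : (UU (u ++ [A] ++ [B]) v : List (Idem (PM n))) =
      xw u ++ ([xl A, xl B] ++ bw) ++ xw v := by simp [UU, xw]
  rw [e1, e2]
  apply hΨ
  · refine ⟨[xl A] ++ bw ++ [xl B], rfl, ?_⟩
    simp [bw]; omega
  · simp
  · simp
  · exact pass hA hB.1 hB.2.1 hB.2.2.1 hB.2.2.2

/-- first phase -/
theorem phase1 {k : ℕ} (hk : 3 ≤ k) {Ψ : List (Idem (PM n)) → ZMod 2} (hΨ : Pot k Ψ)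
    (v : List (Finset (Fin 7))) (m : List (Finset (Fin 7))) :
    ∀ (u : List (Finset (Fin 7))) (A : Finset (Fin 7)),
      (∀ X ∈ u ++ [A] ++ m, 5 ∈ X ∧ 4 ∉ X) → (∀ X ∈ m, Adm X) →
      (mkw (UU (u ++ [A]) (m ++ v)) : IG (PM n)) = mkw (UU (u ++ [A] ++ m) v) ∧
      Ψ (UU (u ++ [A]) (m ++ v)) = Ψ (UU (u ++ [A] ++ m) v) := by
  induction m with
  | nil => intro u A _ _; simp
  | cons B m ih =>
    intro u A h1 h2
    have hB := h2 B (by simp)
    have hA : 4 ∉ A := (h1 A (by simp)).2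
    obtain ⟨i1, i2⟩ := ih (u ++ [A]) B (by
      intro X hX; exact h1 X (by simpa using hX)) (fun X hX => h2 X (by simp [hX]))
    have e : u ++ [A] ++ B :: m = u ++ [A] ++ [B] ++ m := by simp
    rw [List.cons_append, e, pass_word hA hB, i1, pass_pot hk hΨ hA hB, i2]
    refine ⟨rfl, ?_⟩
    rw [Df_eq_zero_of_not_act, zero_add]
    rintro ⟨-, -, h3⟩
    have e2 : vl (xw u ++ ([xl A] ++ bw ++ [xl B]) : List (Idem (PM n))) =
        Es (cs (inter (u ++ [A, B]))) * vl bw := by
      rw [vl_append, vl_congr (pass hA hB.1 hB.2.1 hB.2.2.1 hB.2.2.2), ← vl_append, ← List.append_assoc,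
        vl_append, ← vl_xw (by simp)]
      simp [xw]
    rw [e2] at h3
    have h4 : 5 ∈ inter (u ++ [A, B]) := by
      rw [mem_inter]
      intro X hX
      exact (h1 X (by
        simp only [List.mem_append, List.mem_cons, List.not_mem_nil, or_false] at hX ⊢
        tauto)).1
    have h5 : 4 ∉ inter (u ++ [A, B]) := by
      rw [mem_inter]
      intro h
      exact hA (h A (by simp))
    have := rk_mul_bw (n := n) h4 h5
    omega

/-- last phase -/
theorem phase3 {k : ℕ} (hk : 3 ≤ k) {Ψ : List (Idem (PM n)) → ZMod 2} (hΨ : Pot k Ψ)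
    (v : List (Finset (Fin 7))) (m : List (Finset (Fin 7))) :
    ∀ (u : List (Finset (Fin 7))) (A : Finset (Fin 7)),
      inter (u ++ [A]) = ∅ → 4 ∉ A → (∀ X ∈ m, Adm X) →
      Ψ (UU (u ++ [A]) (m ++ v)) = Ψ (UU (u ++ [A] ++ m) v) := by
  induction m with
  | nil => intro u A _ _ _; simp
  | cons B m ih =>
    intro u A h1 hA h2
    have hB := h2 B (by simp)
    have hi : inter (u ++ [A] ++ [B]) = ∅ := by
      rw [Finset.eq_empty_iff_forall_notMem] at h1 ⊢
      intro x hx
      rw [mem_inter] at hx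
      apply h1 x
      rw [mem_inter]
      intro X hX
      exact hx X (List.mem_append_left _ hX)
    have i2 := ih (u ++ [A]) B hi hB.2.2.1 (fun X hX => h2 X (by simp [hX]))
    have e : u ++ [A] ++ B :: m = u ++ [A] ++ [B] ++ m := by simp
    rw [List.cons_append, e, pass_pot hk hΨ hA hB, i2]
    rw [Df_eq_zero_of_th, zero_add]
    have h0 : rk (vl (xw u ++ [xl A] : List (Idem (PM n)))) = 0 := by
      have e3 : (xw u ++ [xl A] : List (Idem (PM n))) = xw (u ++ [A]) := by simp [xw]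
      rw [e3, rk_xw (by simp), h1]; rfl
    rw [List.append_assoc]
    have e4 : ([xl A, xl B] ++ bw : List (Idem (PM n))) = [xl A] ++ ([xl B] ++ bw) := by simp
    rw [e4, Th_right h0, Th_right h0]

/-- the main window -/
theorem Th_main (k : ℕ) (hact : Act k (xw ([sL, sE, sF, sE, sF] ++ rep sE1 sF1 k ++ [sE1]) : List (Idem (PM n)))
      ([xl sF1] ++ bw ++ [xl sE2]) (xw (sF2 :: rep sE2 sF2 k ++ [sR]))) :
    Th (xw ([sL, sE, sF, sE, sF] ++ rep sE1 sF1 k ++ [sE1]) : List (Idem (PM n))) ([xl sF1] ++ bw ++ [xl sE2]) ≠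
    Th (xw ([sL, sE, sF, sE, sF] ++ rep sE1 sF1 k ++ [sE1]) : List (Idem (PM n))) ([xl sF1, xl sE2] ++ bw) := by
  classical
  set p : List (Idem (PM n)) := xw ([sL, sE, sF, sE, sF] ++ rep sE1 sF1 k ++ [sE1]) with hp
  have hrk := (lemMid hact.1 hact.2.1 hact.2.2).1
  have hrp : rk (vl p) = 1 := hact.2.1
  -- the left part
  have eY : Mu 1 p = Es (cs {0, 1, 5}) := by
    have e1 : p = xw [sL] ++ xw [sE] ++ xw ([sF, sE, sF] ++ rep sE1 sF1 k ++ [sE1]) := by
      rw [hp, ← xw_append, ← xw_append]; simp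
    have r1 : rk (vl (xw [sL] : List (Idem (PM n)))) = 4 := by rw [rk_xw (by simp)]; decide
    have r2 : rk (vl (xw [sL] ++ xw [sE] : List (Idem (PM n)))) = 3 := by
      rw [← xw_append, rk_xw (by simp)]; decide
    rw [e1, Mu_append, Mu_append, one_mul, one_mul]
    have f1 : Mu 1 (xw [sL] : List (Idem (PM n))) = 1 := Mu_high _ (by rw [one_mul]; omega)
    have f2 : Mu (vl (xw [sL] : List (Idem (PM n)))) (xw [sE]) = 1 := by
      show Mu _ [xl sE] = 1
      rw [Mu, if_neg (by omega), Mu]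
    rw [f1, f2, one_mul, one_mul, Mu_mid _ (by omega) (by rw [← vl_append, ← e1, hrp])]
    rw [vl_xw (by simp)]
    congr 2
    apply Finset.Subset.antisymm
    · have : inter ([sF, sE, sF] ++ rep sE1 sF1 k ++ [sE1]) ⊆ inter [sF, sE, sE1] := by
        intro x hx
        rw [mem_inter] at hx ⊢
        intro A hA
        apply hx
        simp only [List.mem_cons, List.not_mem_nil, or_false] at hA
        rcases hA with rfl | rfl | rfl <;> simp
      exact this.trans (by decide)
    · intro x hx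
      rw [mem_inter]
      intro A hA
      simp only [List.mem_append, List.mem_cons, List.not_mem_nil, or_false] at hA
      have h3 : x = 0 ∨ x = 1 ∨ x = 5 := by simpa using hx
      rcases hA with (hA | hA) | hA
      · rcases hA with rfl | rfl | rfl <;> rcases h3 with rfl | rfl | rfl <;> decide
      · rcases mem_rep hA with rfl | rfl <;> rcases h3 with rfl | rfl | rfl <;> decide
      · subst hA; rcases h3 with rfl | rfl | rfl <;> decide
  have evp : vl p = Es (cs {5}) := by
    rw [hp, vl_xw (by simp)]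
    congr 2
    apply Finset.Subset.antisymm
    · have : inter ([sL, sE, sF, sE, sF] ++ rep sE1 sF1 k ++ [sE1]) ⊆ inter [sL, sF, sE1] := by
        intro x hx
        rw [mem_inter] at hx ⊢
        intro A hA
        apply hx
        simp only [List.mem_cons, List.not_mem_nil, or_false] at hA
        rcases hA with rfl | rfl | rfl <;> simp
      exact this.trans (by decide)
    · intro x hx
      rw [mem_inter]
      intro A hA
      simp only [List.mem_append, List.mem_cons, List.not_mem_nil, or_false] at hA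
      have h3 : x = 5 := by simpa using hx
      subst h3
      rcases hA with (hA | hA) | hA
      · rcases hA with rfl | rfl | rfl | rfl | rfl <;> decide
      · rcases mem_rep hA with rfl | rfl <;> decide
      · subst hA; decide
  have e51 : (Es (cs {5}) * Es (cs sF1) : PM n) = Es (cs {5}) := by
    rw [Es_mul, cs_inter]; congr 2
  have r5 : rk (Es (cs {5}) : PM n) = 1 := by rw [rk_cs]; rfl
  -- first value
  have eM1 : Mu (vl p) ([xl sF1] ++ bw ++ [xl sE2]) = Es (cs sF1) * vl bw * Es (cs sE2) := by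
    rw [Mu_append, Mu_mid _ (by omega)]
    · rw [vl_append, vl_singleton, coe_xl]
      congr 1
      have h1 : 1 ≤ rk (vl p * (Es (cs sF1) * vl (bw : List (Idem (PM n))))) := by
        rw [evp, ← mul_assoc, e51]
        exact rk_mul_bw (by simp) (by decide)
      have h2 := rk_mul_le_left (vl p) (Es (cs sF1) * vl (bw : List (Idem (PM n))))
      rw [Mu, if_pos (by omega), Mu, mul_one, coe_xl]
    · rw [vl_append, vl_singleton, coe_xl, evp, ← mul_assoc, e51]
      exact rk_mul_bw (by simp) (by decide)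
  -- second value
  have eM2 : Mu (vl p) ([xl sF1, xl sE2] ++ bw) = Es (cs sF1) * Es (cs sE2) := by
    have h3 : rk (vl p * (Es (cs sF1))) = 1 := by rw [evp, e51, r5]
    have h4 : rk (vl p * (Es (cs sF1)) * Es (cs sE2)) = 0 := by
      rw [evp, e51, Es_mul, cs_inter, rk_cs]; decide
    show Mu (vl p) (xl sF1 :: xl sE2 :: bw) = _
    rw [Mu, if_pos (by omega), Mu, coe_xl, coe_xl, if_pos (by omega), Mu_zero _ h4, mul_one]
  have ea : ∀ f g : Vec n, (f, g) ∈ (Mu 1 p * Mu (vl p) ([xl sF1] ++ bw ++ [xl sE2])).C ↔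
      g (c 0) = f (c 1) ∧ g (c 1) = f (c 0) := by
    intro f g
    have e6 : Mu 1 p * Mu (vl p) ([xl sF1] ++ bw ++ [xl sE2]) = Es (cs {0, 1, 5}) * (vl bw * Es (cs sE2)) := by
      rw [eY, eM1, mul_assoc, ← mul_assoc (Es (cs {0, 1, 5})), Es_mul, cs_inter]
      congr 2
    rw [e6, mem_C_mul]
    have q0 : (c 0 : Fin n) ∈ (cs {0, 1, 5} : Set (Fin n)) := mem_cs.2 (by simp)
    have q1 : (c 1 : Fin n) ∈ (cs {0, 1, 5} : Set (Fin n)) := mem_cs.2 (by simp)
    have s0 : (c 0 : Fin n) ∈ (cs sE2 : Set (Fin n)) := mem_cs.2 (by decide)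
    have s1 : (c 1 : Fin n) ∈ (cs sE2 : Set (Fin n)) := mem_cs.2 (by decide)
    constructor
    · rintro ⟨a, h1, h2⟩
      obtain ⟨b, h3, h4⟩ := mem_C_mul.1 h2
      rw [mem_C_Es] at h1 h4
      rw [mem_C_bw] at h3
      exact ⟨by rw [← h4 _ s0, h3.2.1, h1 _ q1], by rw [← h4 _ s1, h3.2.2.1, h1 _ q0]⟩
    · rintro ⟨h1, h2⟩
      have n2 : (c 2 : Fin n) ≠ c 0 := c_ne (by decide)
      have n2' : (c 2 : Fin n) ≠ c 1 := c_ne (by decide)
      have n25 : (c 5 : Fin n) ≠ c 2 := c_ne (by decide)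
      have n04 : (c 0 : Fin n) ≠ c 2 := c_ne (by decide)
      have n14 : (c 1 : Fin n) ≠ c 2 := c_ne (by decide)
      have n42 : (c 4 : Fin n) ≠ c 2 := c_ne (by decide)
      have n24 : (c 2 : Fin n) ≠ c 4 := c_ne (by decide)
      let a : Vec n := fun k => if k = c 2 then g (c 2) else if k = c 4 then f (c 0) else f k
      refine ⟨a, ?_, mem_C_mul.2 ⟨fun k => if k = c 0 then f (c 1) else if k = c 1 then f (c 0) else a k, ?_, ?_⟩⟩
      · rw [mem_C_Es]
        rintro _ ⟨k, hk, rfl⟩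
        have hk2 : k ≠ 2 ∧ k ≠ 4 := by
          have : k = 0 ∨ k = 1 ∨ k = 5 := by simpa using hk
          rcases this with rfl | rfl | rfl <;> decide
        have m2 : (c k : Fin n) ≠ c 2 := c_ne hk2.1
        have m4 : (c k : Fin n) ≠ c 4 := c_ne hk2.2
        simp [a, m2, m4]
      · rw [mem_C_bw]
        refine ⟨by simp [a, n04, n42, c04], by simp [a, n14, c14], by simp [a, n04, c01.symm, c04], ?_⟩
        intro k hk0 hk1 hk4
        simp [hk0, hk1]
      · rw [mem_C_Es]
        rintro _ ⟨k, hk, rfl⟩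
        have : k = 0 ∨ k = 1 ∨ k = 2 := by
          have : k ∈ sE2 := hk
          revert this; revert k; decide
        rcases this with rfl | rfl | rfl
        · simp [h1]
        · simp [c01.symm, h2]
        · simp [n2, n2', a]
  have eb : Mu 1 p * Mu (vl p) ([xl sF1, xl sE2] ++ bw) = h0 := by
    rw [eY, eM2, Es_mul, Es_mul, cs_inter, cs_inter]
    unfold h0
    congr 2
  intro heq
  unfold Th at heq
  rw [eb] at heq
  set x := Mu 1 p * Mu (vl p) ([xl sF1] ++ bw ++ [xl sE2]) with hx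
  have hxh : x = x * h0 := by
    apply ext_C
    intro f g
    rw [ea, mem_C_mul]
    constructor
    · rintro ⟨h1, h2⟩
      refine ⟨g, (ea f g).2 ⟨h1, h2⟩, ?_⟩
      rw [mem_C_h0]; exact ⟨rfl, rfl⟩
    · rintro ⟨a, h1, h2⟩
      rw [ea] at h1
      rw [mem_C_h0] at h2
      exact ⟨by rw [← h2.1, h1.1], by rw [← h2.2, h1.2]⟩
  have := triv_h0.tr_inj (a := (h0 : PM n)) (b := x) (u := x) rfl (by rw [hrk, rk_h0]) hxh heq.symm
  have h8 : ((Pi.single (c 0) 1 : Vec n), (Pi.single (c 0) 1 : Vec n)) ∈ (h0 : PM n).C := by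
    rw [mem_C_h0]; exact ⟨rfl, rfl⟩
  rw [this, ea] at h8
  have h9 := h8.1
  simp [c01.symm] at h9

/-- no potential exists -/
theorem no_pot {k : ℕ} (hk : 3 ≤ k) (Ψ : List (Idem (PM n)) → ZMod 2) (hΨ : Pot k Ψ) : False := by
  classical
  -- start
  have hL : mkw ([xl sL] ++ bw : List (Idem (PM n))) = mkw [xl sL] :=
    vl_mul_bw (by decide) (by decide) (by decide)
  set rest : List (Finset (Fin 7)) := ([sE, sF, sE, sF] ++ rep sE1 sF1 (k + 1)) ++
    (rep sE2 sF2 (k + 1) ++ [sR]) with hrest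
  have hbas : bas (k + 1) = [sL] ++ rest := by rw [hrest]; simp [bas, bmid]
  have e0 : (bword k : List (Idem (PM n))) = [] ++ [xl sL] ++ xw rest := by
    unfold bword; rw [hbas]; simp [xw]
  have e1 : (UU ([] ++ [sL]) rest : List (Idem (PM n))) = [] ++ ([xl sL] ++ bw) ++ xw rest := by
    simp [UU, xw]
  have s0 : Ψ (bword k) = Ψ (UU ([] ++ [sL]) rest) := by
    rw [e0, e1, hΨ [] (xw rest) [xl sL] ([xl sL] ++ bw) ⟨[xl sL], rfl, by simp; omega⟩ (by simp) (by simp) hL.symm,
      Df_eq_zero_of_not_act, zero_add]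
    rintro ⟨-, h2, -⟩
    rw [vl_nil, rk_one'] at h2
    have := hn.out
    omega
  have s0' : (mkw (UU ([] ++ [sL]) rest) : IG (PM n)) = mkw (bword k) := by
    rw [e0, e1]; exact mkw_congr hL
  -- first phase
  obtain ⟨i1, i2⟩ := phase1 hk hΨ (rep sE2 sF2 (k + 1) ++ [sR]) ([sE, sF, sE, sF] ++ rep sE1 sF1 (k + 1))
    [] sL (by
      intro X hX
      simp only [List.mem_append, List.mem_cons, List.not_mem_nil, or_false, List.nil_append] at hX
      rcases hX with hX | hX | hX
      · subst hX; decide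
      · rcases hX with rfl | rfl | rfl | rfl <;> decide
      · rcases mem_rep hX with rfl | rfl <;> decide) (by
      intro X hX
      simp only [List.mem_append, List.mem_cons, List.not_mem_nil, or_false] at hX
      rcases hX with hX | hX
      · rcases hX with rfl | rfl | rfl | rfl <;> (unfold Adm; decide)
      · rcases mem_rep hX with rfl | rfl <;> (unfold Adm; decide))
  have hrep : ∀ (a b : Finset (Fin 7)) (j : ℕ), rep a b (j + 1) = rep a b j ++ [a, b] := by
    intro a b j
    induction j with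
    | zero => rfl
    | succ j ih =>
      have h1 : rep a b (j + 1 + 1) = a :: b :: rep a b (j + 1) := rfl
      have h2 : rep a b (j + 1) = a :: b :: rep a b j := rfl
      rw [h1]
      nth_rw 1 [ih]
      rw [h2]
      rfl
  set P := [sL, sE, sF, sE, sF] ++ rep sE1 sF1 k ++ [sE1] with hP
  have e2 : [] ++ [sL] ++ ([sE, sF, sE, sF] ++ rep sE1 sF1 (k + 1)) = P ++ [sF1] := by
    rw [hrep, hP]; simp
  have e3 : rep sE2 sF2 (k + 1) ++ [sR] = sE2 :: (sF2 :: rep sE2 sF2 k ++ [sR]) := by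
    rw [rep_succ]; simp
  rw [e2, e3] at i1 i2
  rw [← e3] at i1 i2
  rw [e3] at i1 i2
  -- main step
  have hE2 : Adm sE2 := by unfold Adm; decide
  have s2 := pass_pot hk hΨ (u := P) (v := sF2 :: rep sE2 sF2 k ++ [sR]) (A := sF1) (B := sE2)
    (by decide) hE2
  have evp : vl (xw P : List (Idem (PM n))) = Es (cs {5}) := by
    rw [vl_xw (by simp [hP])]
    congr 2
    apply Finset.Subset.antisymm
    · have : inter P ⊆ inter [sL, sF, sE1] := by
        intro x hx
        rw [mem_inter] at hx ⊢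
        intro A hA
        apply hx
        simp only [List.mem_cons, List.not_mem_nil, or_false] at hA
        rcases hA with rfl | rfl | rfl <;> simp [hP]
      exact this.trans (by decide)
    · intro x hx
      rw [mem_inter]
      intro A hA
      simp only [hP, List.mem_append, List.mem_cons, List.not_mem_nil, or_false] at hA
      have h3 : x = 5 := by simpa using hx
      subst h3
      rcases hA with (hA | hA) | hA
      · rcases hA with rfl | rfl | rfl | rfl | rfl <;> decide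
      · rcases mem_rep hA with rfl | rfl <;> decide
      · subst hA; decide
  have hact : Act k (xw P : List (Idem (PM n))) ([xl sF1] ++ bw ++ [xl sE2])
      (xw (sF2 :: rep sE2 sF2 k ++ [sR])) := by
    refine ⟨?_, ?_, ?_⟩
    · rw [← s0', hrest, e3, i1]
      congr 1
      simp [UU, xw]
    · rw [evp, rk_cs]; rfl
    · rw [vl_append, evp, vl_congr (pass (n := n) (A := sF1) (B := sE2) (by decide) (by decide)
        (by decide) (by decide) (by decide)), vl_append]
      have h1 : (Es (cs {5}) * vl [xl sF1, xl sE2] : PM n) = Es (cs ∅) := by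
        simp only [vl_cons, vl_nil, mul_one, coe_xl]
        rw [Es_mul, Es_mul, cs_inter, cs_inter]
        congr 2
      rw [← mul_assoc, h1]
      have h2 := rk_mul_le_left (Es (cs ∅) : PM n) (vl bw)
      rw [rk_cs] at h2
      simpa using h2
  have hD : Df k (xw P : List (Idem (PM n))) ([xl sF1] ++ bw ++ [xl sE2]) ([xl sF1, xl sE2] ++ bw)
      (xw (sF2 :: rep sE2 sF2 k ++ [sR])) = 1 := by
    unfold Df
    rw [if_pos ⟨hact, Th_main k hact⟩]
  rw [hD] at s2
  -- last phase
  have hin : inter (P ++ [sF1] ++ [sE2]) = ∅ := by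
    have : inter (P ++ [sF1] ++ [sE2]) ⊆ inter [sL, sF, sE2] := by
      intro x hx
      rw [mem_inter] at hx ⊢
      intro A hA
      apply hx
      simp only [List.mem_cons, List.not_mem_nil, or_false] at hA
      rcases hA with rfl | rfl | rfl <;> simp [hP]
    exact Finset.subset_empty.1 (this.trans (by decide))
  have s3 := phase3 hk hΨ [sR] (sF2 :: rep sE2 sF2 k) (P ++ [sF1]) sE2 hin (by decide) (by
    intro X hX
    simp only [List.mem_cons] at hX
    rcases hX with rfl | hX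
    · unfold Adm; decide
    · rcases mem_rep hX with rfl | rfl <;> (unfold Adm; decide))
  -- end
  obtain ⟨Y, hY⟩ : ∃ Y, P ++ [sF1] ++ [sE2] ++ (sF2 :: rep sE2 sF2 k) = Y ++ [sF2] ∧ inter Y = ∅ := by
    refine ⟨P ++ [sF1] ++ rep sE2 sF2 k ++ [sE2], ?_, ?_⟩
    · have : [sE2] ++ (sF2 :: rep sE2 sF2 k) = rep sE2 sF2 k ++ [sE2] ++ [sF2] := by
        have h1 : [sE2] ++ (sF2 :: rep sE2 sF2 k) = rep sE2 sF2 (k + 1) := rfl
        rw [h1, hrep]; simp
      rw [List.append_assoc, this]; simp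
    · have : inter (P ++ [sF1] ++ rep sE2 sF2 k ++ [sE2]) ⊆ inter [sL, sF, sE2] := by
        intro x hx
        rw [mem_inter] at hx ⊢
        intro A hA
        apply hx
        simp only [List.mem_cons, List.not_mem_nil, or_false] at hA
        rcases hA with rfl | rfl | rfl <;> simp [hP]
      exact Finset.subset_empty.1 (this.trans (by decide))
  have e5 : (UU (Y ++ [sF2]) [sR] : List (Idem (PM n))) = xw Y ++ ([xl sF2] ++ bw ++ [xl sR]) ++ [] := by
    simp [UU, xw]
  have e6 : (bword k : List (Idem (PM n))) = xw Y ++ ([xl sF2, xl sR]) ++ [] := by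
    unfold bword
    have : bas (k + 1) = Y ++ [sF2] ++ [sR] := by
      rw [← hY.1, hbas, hrest, e3, ← e2]; simp
    rw [this]; simp [xw]
  have s4 : Ψ (UU (Y ++ [sF2]) [sR]) = Ψ (bword k) := by
    rw [e5, e6, hΨ (xw Y) [] ([xl sF2] ++ bw ++ [xl sR]) [xl sF2, xl sR] ⟨[xl sF2] ++ bw ++ [xl sR], rfl, by simp [bw]; omega⟩
      (by simp) (by simp) (passR (by decide) (by decide) (by decide) (by decide) (by decide)),
      Df_eq_zero_of_not_act, zero_add]
    rintro ⟨-, h2, -⟩
    by_cases hYn : Y = []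
    · rw [hYn] at hY
      have h7 := hY.2
      have h8 : (0 : Fin 7) ∈ inter ([] : List (Finset (Fin 7))) := by
        rw [mem_inter]; intro A hA; simp at hA
      rw [h7] at h8
      simp at h8
    · rw [rk_xw hYn, hY.2] at h2
      simp at h2
  have f1 : Ψ (bword k) = 1 + Ψ (bword k) := by
    conv_lhs => rw [s0, hrest, e3, i2, s2]
    rw [← s4, ← hY.1, ← s3]
  have : (1 : ZMod 2) = 0 := by
    have h := f1
    nth_rw 1 [← zero_add (Ψ (bword k))] at h
    exact (add_right_cancel h).symm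
  exact absurd this (by decide)

end Pool.Agent.H359.IGR
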